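import Pool.Agent.Run7.h984.PK.Iface

/-!
# PK, piece A

The moves of the cars at the vertices of `up x` are fair coins, independent of the numbers of cars.
-/

set_option autoImplicit false

open MeasureTheory Measure Finset Filter
open scoped ENNReal Topology
open Pool.Agent.TH996.Parking Pool.Agent.TH996 Pool.Agent.TH996.Park

noncomputable section

namespace Run7.h984.PK.A

open Run7.h984.PK

section

variable {V : Type} [DecidableEq V]

/-- the factor of one possible move -/
def ph (up : V → Finset V) (x : V) (u : ℝ) (a : ℕ × V × ℕ) (ω : Om0 V) : ℝ :=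
  if a.2.2 < Cu up a.1 a.2.1 ω ∧ ω.2 a = x then 1 - u else 1

/-- its mean -/
def ps (up : V → Finset V) (u : ℝ) (a : ℕ × V × ℕ) (ω : Om0 V) : ℝ :=
  if a.2.2 < Cu up a.1 a.2.1 ω then 1 - u / 2 else 1

lemma prod_ph (up : V → Finset V) (x : V) (u : ℝ) (t : ℕ) (y : V) (N : ℕ) (ω : Om0 V)
    (hN : Cu up t y ω ≤ N) : ∏ i ∈ range N, ph up x u (t, y, i) ω =
      (1 - u) ^ ((range (Cu up t y ω)).filter
        fun i => (emb ω).2.2 (t, y, i) = false ∧ (emb ω).2.1 (t, y, i) = x).card := by
  unfold ph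
  rw [← Finset.prod_filter, prod_const]
  congr 2
  ext i
  simp only [mem_filter, mem_range, emb]
  constructor
  · rintro ⟨_, h2, h3⟩; exact ⟨h2, trivial, h3⟩
  · rintro ⟨h2, _, h3⟩; exact ⟨by omega, h2, h3⟩

lemma prod_ps (up : V → Finset V) (u : ℝ) (t : ℕ) (y : V) (N : ℕ) (ω : Om0 V)
    (hN : Cu up t y ω ≤ N) : ∏ i ∈ range N, ps up u (t, y, i) ω = (1 - u / 2) ^ Cu up t y ω := by
  unfold ps
  rw [← Finset.prod_filter, prod_const]
  congr 1
  have : (range N).filter (fun i => i < Cu up t y ω) = range (Cu up t y ω) := by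
    ext i
    simp only [mem_filter, mem_range]
    constructor
    · rintro ⟨_, h2⟩; exact h2
    · intro h2; exact ⟨by omega, h2⟩
  rw [this, card_range]

variable [MeasurableSpace V] [MeasurableSingletonClass V]

lemma meas_Cu (up : V → Finset V) (t : ℕ) (y : V) : Measurable (Cu up t y) :=
  ((measurable_CF up t).1 y).comp measurable_emb

lemma bm_ph (up : V → Finset V) (x : V) (u : ℝ) (h0 : 0 ≤ u) (h1 : u ≤ 1) (a : ℕ × V × ℕ) :
    BM (ph up x u a) := by
  refine ⟨?_, 1, fun ω => ?_⟩
  · unfold ph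
    refine Measurable.ite ?_ measurable_const measurable_const
    refine MeasurableSet.inter ?_ ?_
    · exact (meas_Cu up a.1 a.2.1) (measurableSet_Ioi : MeasurableSet (Set.Ioi a.2.2))
    · have hm : Measurable fun ω : Om0 V => ω.2 a := (measurable_pi_apply a).comp measurable_snd
      exact hm (measurableSet_singleton x)
  · unfold ph
    split_ifs
    · rw [abs_of_nonneg (by linarith)]; linarith
    · simp

lemma bm_ps (up : V → Finset V) (u : ℝ) (h0 : 0 ≤ u) (h1 : u ≤ 1) (a : ℕ × V × ℕ) :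
    BM (ps up u a) := by
  refine ⟨?_, 1, fun ω => ?_⟩
  · unfold ps
    refine Measurable.ite ?_ measurable_const measurable_const
    exact (meas_Cu up a.1 a.2.1) (measurableSet_Ioi : MeasurableSet (Set.Ioi a.2.2))
  · unfold ps
    split_ifs
    · rw [abs_of_nonneg (by linarith)]; linarith
    · simp

lemma bm_prod {ι : Type} (J : Finset ι) (f : ι → Om0 V → ℝ) (h : ∀ a, BM (f a)) :
    BM fun ω => ∏ a ∈ J, f a ω := by
  classical
  induction J using Finset.induction_on with
  | empty => simpa using BM.const (Ω := Om0 V) 1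
  | insert a J ha ih =>
    simp only [prod_insert ha]
    exact (h a).mul ih

variable [Countable V]

lemma mean (S : Tri V) (x y : V) (hx : x ∈ S.nb y) (hK : S.K y x = 1 / 2) (u : ℝ) (i n : ℕ) :
    ∫ v, (if i < n ∧ v = x then 1 - u else 1) ∂(stepLaw S.nb S.K y) =
      if i < n then 1 - u / 2 else 1 := by
  rw [S.integral_stepLaw y]
  by_cases h : i < n
  · simp only [h, true_and, if_true]
    have e : ∀ v, S.K y v * (if v = x then 1 - u else 1) =
        S.K y v - (if v = x then u * S.K y v else 0) := by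
      intro v
      split_ifs
      · ring
      · ring
    simp only [e]
    rw [sum_sub_distrib, S.sum_one, sum_ite_eq', if_pos hx, hK]
    ring
  · simp only [h, false_and, if_false, mul_one]
    exact S.sum_one y

lemma main (hL : S_LOC) (S : Tri V) (up : V → Finset V) (cone : V → Set V) (hC : Cone S up cone)
    (p : ℝ) (hp : 0 ≤ p ∧ p ≤ 1) (x : V) (u : ℝ) (h0 : 0 ≤ u) (h1 : u ≤ 1)
    (J : Finset (ℕ × V × ℕ)) : ∀ (_ : ∀ a ∈ J, a.2.1 ∈ up x) (G : Om0 V → ℝ), BM G →
    (∀ (ω : Om0 V) (a : ℕ × V × ℕ) (v : V), a.2.1 ∈ up x →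
      G (ω.1, Function.update ω.2 a v) = G ω) →
    ∫ ω, (∏ a ∈ J, ph up x u a ω) * G ω ∂(S.law0 p) =
      ∫ ω, (∏ a ∈ J, ps up u a ω) * G ω ∂(S.law0 p) := by
  have hinv : ∀ (t : ℕ) (y : V), y ∈ up x → ∀ (ω : Om0 V) (a : ℕ × V × ℕ) (v : V), a.2.1 ∈ up x →
      Cu up t y (ω.1, Function.update ω.2 a v) = Cu up t y ω := by
    intro t y hy ω a v ha
    refine ((hL V up cone hC.self hC.sub (ω.1, Function.update ω.2 a v) ω y ?_).2.2 rfl t).1
    intro z hz hzy
    refine ⟨rfl, fun t i => ?_⟩
    have hne : (t, z, i) ≠ a := by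
      rintro rfl
      have hd := hC.disj x y hy z ha (Ne.symm hzy)
      exact Set.disjoint_left.1 hd hz (hC.self z)
    simp only [Function.update_of_ne hne]
  induction J using Finset.induction_on with
  | empty => intro _ G _ _; simp
  | insert a J ha ih =>
    intro hJ G hG hGi
    have haU : a.2.1 ∈ up x := hJ a (mem_insert_self a J)
    have hJ' : ∀ b ∈ J, b.2.1 ∈ up x := fun b hb => hJ b (mem_insert_of_mem hb)
    have hpr := bern_prob hp.1 hp.2
    have hR : Resamp (S.law0 p) (stepLaw S.nb S.K a.2.1)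
        (fun ω v => (ω.1, Function.update ω.2 a v)) :=
      (Resamp.pi (fun a : ℕ × V × ℕ => stepLaw S.nb S.K a.2.1) a).right
        (infinitePi fun _ : V => bern p)
    have hpr2 := law0_prob S hp
    have hBp : BM fun ω => ∏ b ∈ insert a J, ph up x u b ω :=
      bm_prod _ _ fun b => bm_ph up x u h0 h1 b
    have hnb : x ∈ S.nb a.2.1 := S.symm _ _ (hC.nb x haU)
    have e1 : (∫ ω, (∏ b ∈ insert a J, ph up x u b ω) * G ω ∂(S.law0 p)) =
        ∫ ω, (∏ b ∈ J, ph up x u b ω) * (ps up u a ω * G ω) ∂(S.law0 p) := by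
      rw [hR.integral (hBp.mul hG)]
      refine integral_congr_ae (ae_of_all _ fun ω => ?_)
      have e2 : ∀ v : V, (∏ b ∈ insert a J, ph up x u b (ω.1, Function.update ω.2 a v)) *
          G (ω.1, Function.update ω.2 a v) = ((∏ b ∈ J, ph up x u b ω) * G ω) *
          (if a.2.2 < Cu up a.1 a.2.1 ω ∧ v = x then 1 - u else 1) := by
        intro v
        rw [hGi ω a v haU, prod_insert ha]
        have e3 : ph up x u a (ω.1, Function.update ω.2 a v) =
            if a.2.2 < Cu up a.1 a.2.1 ω ∧ v = x then 1 - u else 1 := by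
          unfold ph
          rw [hinv a.1 a.2.1 haU ω a v haU]
          simp only [Function.update_self]
        have e4 : ∏ b ∈ J, ph up x u b (ω.1, Function.update ω.2 a v) =
            ∏ b ∈ J, ph up x u b ω := by
          refine prod_congr rfl fun b hb => ?_
          unfold ph
          rw [hinv b.1 b.2.1 (hJ' b hb) ω a v haU]
          have hba : b ≠ a := fun e => ha (e ▸ hb)
          simp only [Function.update_of_ne hba]
        rw [e3, e4]; ring
      simp only [e2]
      rw [integral_const_mul, mean S x a.2.1 hnb (hC.half x _ haU)]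
      unfold ps
      ring
    rw [e1, ih hJ' (fun ω => ps up u a ω * G ω) ((bm_ps up u h0 h1 a).mul hG) ?_]
    · refine integral_congr_ae (ae_of_all _ fun ω => ?_)
      simp only [prod_insert ha]; ring
    · intro ω b v hb
      have e5 : ps up u a (ω.1, Function.update ω.2 b v) = ps up u a ω := by
        unfold ps
        rw [hinv a.1 a.2.1 haU ω b v hb]
      rw [hGi ω b v hb, e5]

end

theorem piece (hL : S_LOC) : S_A := by
  intro V _ _ _ _ S up cone hC p hp0 hp1 T x u hu0 hu1
  obtain ⟨N, hN⟩ : ∃ N : ℕ, ∀ t ∈ range T, ∀ y ∈ up x, ∀ ω : Om0 V, Cu up t y ω ≤ N := by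
    refine ⟨∑ t ∈ range T, ∑ y ∈ up x, bd up t y, fun t ht y hy ω => ?_⟩
    have h1 : Cu up t y ω ≤ bd up t y := cs_le_bd up _ _ _ _ (c0_le _) t y
    have h2 : bd up t y ≤ ∑ y ∈ up x, bd up t y :=
      single_le_sum (f := fun y => bd up t y) (fun _ _ => Nat.zero_le _) hy
    have h3 : ∑ y ∈ up x, bd up t y ≤ ∑ t ∈ range T, ∑ y ∈ up x, bd up t y :=
      single_le_sum (f := fun t => ∑ y ∈ up x, bd up t y) (fun _ _ => Nat.zero_le _) ht
    omega
  have key := main hL S up cone hC p ⟨hp0, hp1⟩ x u hu0 hu1 (range T ×ˢ (up x ×ˢ range N))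
    (fun a ha => (mem_product.1 (mem_product.1 ha).2).1) (fun _ => 1) (BM.const 1)
    (fun _ _ _ _ => rfl)
  simp only [mul_one] at key
  have e1 : ∀ ω : Om0 V, ∏ a ∈ range T ×ˢ (up x ×ˢ range N), ph up x u a ω =
      (1 - u) ^ Vu up T x ω := by
    intro ω
    rw [prod_product]
    unfold Vu
    rw [← prod_pow_eq_pow_sum]
    refine prod_congr rfl fun t ht => ?_
    rw [prod_product]
    have e : Au up t x ω = ∑ y ∈ up x, ((range (Cu up t y ω)).filter
        fun i => (emb ω).2.2 (t, y, i) = false ∧ (emb ω).2.1 (t, y, i) = x).card := rfl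
    rw [e, ← prod_pow_eq_pow_sum]
    exact prod_congr rfl fun y hy => prod_ph up x u t y N ω (hN t ht y hy ω)
  have e2 : ∀ ω : Om0 V, ∏ a ∈ range T ×ˢ (up x ×ˢ range N), ps up u a ω =
      ∏ y ∈ up x, (1 - u / 2) ^ Du up T y ω := by
    intro ω
    rw [prod_product]
    have e : ∀ y, (1 - u / 2) ^ Du up T y ω = ∏ t ∈ range T, (1 - u / 2) ^ Cu up t y ω := by
      intro y
      unfold Du
      rw [prod_pow_eq_pow_sum]
    simp only [e]
    rw [prod_comm (s := up x)]
    refine prod_congr rfl fun t ht => ?_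
    rw [prod_product]
    exact prod_congr rfl fun y hy => prod_ps up u t y N ω (hN t ht y hy ω)
  simp only [e1, e2] at key
  exact key

end Run7.h984.PK.A
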