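import Pool.Agent.Run7.h984.PK.Iface

/-!
# MP_971c94_pr (helper984), piece AE (helper888)
-/

set_option autoImplicit false

open MeasureTheory Measure Finset Filter
open scoped ENNReal Topology
open Pool.Agent.TH996.Parking Pool.Agent.TH996 Pool.Agent.TH996.Park

namespace Run7.h984.PK.AE

theorem piece : S_AE := by
  intro V _ _ _ _ S up cone hC p hp0 hp1
  have := bern_prob hp0 hp1
  have hst : ∀ y : V, (stepLaw S.nb S.K y) {x | y ∉ up x} = 0 := by
    intro y
    unfold stepLaw
    rw [Measure.finsetSum_apply]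
    apply Finset.sum_eq_zero
    intro x _
    rw [Measure.smul_apply, smul_eq_mul]
    by_cases h : y ∈ up x
    · rw [dirac_apply' _ (Set.to_countable _).measurableSet, Set.indicator_of_notMem, mul_zero]
      simpa using h
    · rw [hC.zero x y h, ENNReal.ofReal_zero, zero_mul]
  have hae1 : ∀ a : ℕ × V × ℕ, ∀ᵐ ω ∂(S.law0 p), a.2.1 ∈ up (ω.2 a) := by
    intro a
    have hmp : MeasurePreserving (fun ω : (V → Bool) × (ℕ × V × ℕ → V) => ω.2 a) (S.law0 p)
        (stepLaw S.nb S.K a.2.1) := by
      unfold Tri.law0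
      exact (measurePreserving_eval_infinitePi
        (fun a : ℕ × V × ℕ => stepLaw S.nb S.K a.2.1) a).comp measurePreserving_snd
    rw [ae_iff]
    have h := hmp.measure_preimage (s := {x | a.2.1 ∉ up x})
      (Set.to_countable _).measurableSet.nullMeasurableSet
    rw [hst] at h
    exact h
  filter_upwards [ae_all_iff.2 hae1] with ω hω
  have hA : ∀ t x, (∀ y, Cn S.nb t y (emb ω) = Cu up t y ω) →
      An S.nb t x (emb ω) = Au up t x ω := by
    intro t x h
    have e1 : An S.nb t x (emb ω) = ∑ y ∈ S.nb x, ((range (Cn S.nb t y (emb ω))).filter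
        fun i => (false : Bool) = false ∧ ω.2 (t, y, i) = x).card := rfl
    have e2 : Au up t x ω = ∑ y ∈ up x, ((range (Cu up t y ω)).filter
        fun i => (false : Bool) = false ∧ ω.2 (t, y, i) = x).card := rfl
    rw [e1, e2]
    symm
    have e3 : ∑ y ∈ up x, ((range (Cu up t y ω)).filter
        fun i => (false : Bool) = false ∧ ω.2 (t, y, i) = x).card =
        ∑ y ∈ up x, ((range (Cn S.nb t y (emb ω))).filter
        fun i => (false : Bool) = false ∧ ω.2 (t, y, i) = x).card :=
      Finset.sum_congr rfl fun y _ => by rw [h y]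
    rw [e3]
    apply Finset.sum_subset (hC.nb x)
    intro y _ hy
    rw [Finset.card_eq_zero, Finset.filter_eq_empty_iff]
    rintro i _ ⟨_, hi⟩
    have := hω (t, y, i)
    rw [hi] at this
    exact hy this
  have hCF : ∀ t x, Cn S.nb t x (emb ω) = Cu up t x ω ∧ Fn S.nb t x (emb ω) = Fu up t x ω := by
    intro t
    induction t with
    | zero => intro x; exact ⟨rfl, rfl⟩
    | succ t ih =>
      intro x
      have hA' := hA t x (fun y => (ih y).1)
      constructor
      · change An S.nb t x (emb ω) - Fn S.nb t x (emb ω) = Au up t x ω - Fu up t x ω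
        rw [hA', (ih x).2]
      · change Fn S.nb t x (emb ω) - An S.nb t x (emb ω) = Fu up t x ω - Au up t x ω
        rw [hA', (ih x).2]
  intro t x
  exact ⟨(hCF t x).1, (hCF t x).2, hA t x fun y => (hCF t y).1⟩

end Run7.h984.PK.AE
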