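import Pool.Agent.Run7.h984.PK.Iface

/-!
# Piece AN of the project PK of helper984 on `MP_971c94_pr` (helper56)
-/

set_option autoImplicit false

namespace Run7.h984.PK.AN

lemma step_H {p v F F1 H : ℝ} (hp0 : 0 ≤ p) (hp : p < 1 / 2) (hv0 : 0 ≤ v) (hv : v ≤ 1 / 2)
    (hF0 : 0 ≤ F) (hF1 : F ≤ 1) (h3 : 1 - 2 * p ≤ (1 - p) * F1)
    (hH : H = p * ((1 - v) * F) + (1 - p) * (F1 + (F - F1) / (1 - v))) :
    H ≤ F * Real.exp (v ^ 2) := by
  have hv1 : 0 < 1 - v := by linarith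
  have e1 : (1 - v) * H = p * (1 - v) ^ 2 * F + (1 - p) * F - ((1 - p) * F1) * v := by
    rw [hH]
    field_simp
    ring
  have e2 : (1 - v) * H ≤ p * (1 - v) ^ 2 * F + (1 - p) * F - (1 - 2 * p) * v := by
    rw [e1]
    have := mul_le_mul_of_nonneg_right h3 hv0
    linarith
  have e3 : (1 - 2 * p) * v * F ≤ (1 - 2 * p) * v * 1 :=
    mul_le_mul_of_nonneg_left hF1 (mul_nonneg (by linarith) hv0)
  have e4 : (1 - v) * H ≤ (1 - v) * (F * (1 + 2 * p * v ^ 2)) := by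
    have h1 : 0 ≤ F * (p * v ^ 2) := mul_nonneg hF0 (mul_nonneg hp0 (sq_nonneg v))
    have h2 : 0 ≤ F * (p * v ^ 2) * (1 - 2 * v) := mul_nonneg h1 (by linarith)
    nlinarith
  have e5 : H ≤ F * (1 + 2 * p * v ^ 2) := le_of_mul_le_mul_left e4 hv1
  refine e5.trans (mul_le_mul_of_nonneg_left ?_ hF0)
  have h6 : 2 * p * v ^ 2 ≤ 1 * v ^ 2 := mul_le_mul_of_nonneg_right (by linarith) (sq_nonneg v)
  have h7 := Real.add_one_le_exp (v ^ 2)
  linarith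

lemma iterate {F : ℕ → ℝ → ℝ} (h1 : ∀ T u, 0 ≤ u → u ≤ 1 → 0 ≤ F T u ∧ F T u ≤ 1)
    (h2 : ∀ T v, 0 ≤ v → v ≤ 1 / 2 → F (T + 1) (2 * v) ≤ F T v ^ 2 * Real.exp (2 * v ^ 2))
    (k : ℕ) : ∀ T, F (T + k) 1 ≤ F T ((1 / 2) ^ k) ^ (2 ^ k) * Real.exp (1 - (1 / 2) ^ k) := by
  induction k with
  | zero => intro T; simp
  | succ k ih =>
    intro T
    have hk0 : (0 : ℝ) ≤ (1 / 2) ^ (k + 1) := by positivity
    have hk1 : ((1 : ℝ) / 2) ^ (k + 1) ≤ 1 / 2 := by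
      rw [pow_succ]
      have : ((1 : ℝ) / 2) ^ k ≤ 1 := pow_le_one₀ (by norm_num) (by norm_num)
      linarith
    have e1 := h2 T _ hk0 hk1
    have e2 : (2 : ℝ) * (1 / 2) ^ (k + 1) = (1 / 2) ^ k := by
      rw [pow_succ]
      ring
    rw [e2] at e1
    have e3 := ih (T + 1)
    rw [show T + (k + 1) = T + 1 + k by ring]
    have hp0 : 0 ≤ F (T + 1) ((1 / 2) ^ k) :=
      (h1 (T + 1) _ (by positivity) (pow_le_one₀ (by norm_num) (by norm_num))).1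
    have e4 : F (T + 1) ((1 / 2) ^ k) ^ (2 ^ k) ≤
        (F T ((1 / 2) ^ (k + 1)) ^ 2 * Real.exp (2 * ((1 / 2) ^ (k + 1)) ^ 2)) ^ (2 ^ k) :=
      pow_le_pow_left₀ hp0 e1 _
    have e5 : (F T ((1 / 2) ^ (k + 1)) ^ 2 * Real.exp (2 * ((1 / 2) ^ (k + 1)) ^ 2)) ^ (2 ^ k) =
        F T ((1 / 2) ^ (k + 1)) ^ (2 ^ (k + 1)) * Real.exp ((1 / 2) ^ (k + 1)) := by
      rw [mul_pow, ← pow_mul, ← pow_succ', ← Real.exp_nat_mul]
      congr 2
      push_cast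
      have : (2 : ℝ) ^ k * (2 * (((1 : ℝ) / 2) ^ (k + 1)) ^ 2) =
        ((2 : ℝ) ^ k * 2 * (1 / 2) ^ (k + 1)) * (1 / 2) ^ (k + 1) := by ring
      rw [this, ← pow_succ, ← mul_pow]
      norm_num
    calc F (T + 1 + k) 1 ≤ F (T + 1) ((1 / 2) ^ k) ^ (2 ^ k) * Real.exp (1 - (1 / 2) ^ k) := e3
      _ ≤ (F T ((1 / 2) ^ (k + 1)) ^ (2 ^ (k + 1)) * Real.exp ((1 / 2) ^ (k + 1))) *
          Real.exp (1 - (1 / 2) ^ k) :=
        mul_le_mul_of_nonneg_right (e4.trans_eq e5) (Real.exp_pos _).le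
      _ = F T ((1 / 2) ^ (k + 1)) ^ (2 ^ (k + 1)) * Real.exp (1 - (1 / 2) ^ (k + 1)) := by
        rw [mul_assoc, ← Real.exp_add, ← e2]
        congr 2
        ring

/-- **Piece AN** -/
theorem piece : S_AN := by
  intro p hp0 hp F H h1 h2 h3 h4 h5 T k
  have hstep : ∀ T v, 0 ≤ v → v ≤ 1 / 2 →
      F (T + 1) (2 * v) ≤ F T v ^ 2 * Real.exp (2 * v ^ 2) := by
    intro T v hv0 hv
    obtain ⟨g1, g2⟩ := h1 T v hv0 (by linarith)
    have e := step_H hp0 hp hv0 hv g1 g2 (h3 T) (h4 T v hv0 hv)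
    rw [h5 T v hv0 hv]
    calc H T v * H T v ≤ (F T v * Real.exp (v ^ 2)) * (F T v * Real.exp (v ^ 2)) :=
          mul_self_le_mul_self (h2 T v hv0 hv) e
      _ = F T v ^ 2 * Real.exp (2 * v ^ 2) := by
        rw [two_mul, Real.exp_add]
        ring
  have hit := iterate h1 hstep k T
  have hu0 : (0 : ℝ) ≤ (1 / 2) ^ k := by positivity
  have hu1 : ((1 : ℝ) / 2) ^ k ≤ 1 := pow_le_one₀ (by norm_num) (by norm_num)
  obtain ⟨g1, g2⟩ := h1 T _ hu0 hu1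
  set f := F T ((1 / 2) ^ k) with hf
  have e1 : f ≤ Real.exp (-(1 - f)) := by
    have := Real.add_one_le_exp (-(1 - f))
    linarith
  have e2 : f ^ (2 ^ k) ≤ Real.exp (-(2 ^ k * (1 - f))) := by
    calc f ^ (2 ^ k) ≤ Real.exp (-(1 - f)) ^ (2 ^ k) := pow_le_pow_left₀ g1 e1 _
      _ = Real.exp (-(2 ^ k * (1 - f))) := by
        rw [← Real.exp_nat_mul]
        congr 1
        push_cast
        ring
  have e3 : 1 - 2 * p ≤ F (T + k) 1 := by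
    have a1 := h3 (T + k)
    have a2 := (h1 (T + k) 1 zero_le_one le_rfl).1
    have a3 : 0 ≤ p * F (T + k) 1 := mul_nonneg hp0 a2
    linarith
  have e4 : 1 - 2 * p ≤ Real.exp (1 - 2 ^ k * (1 - f)) := by
    calc 1 - 2 * p ≤ F (T + k) 1 := e3
      _ ≤ f ^ (2 ^ k) * Real.exp (1 - (1 / 2) ^ k) := hit
      _ ≤ Real.exp (-(2 ^ k * (1 - f))) * Real.exp 1 := by
        refine mul_le_mul e2 (Real.exp_le_exp.2 (by linarith)) (Real.exp_pos _).le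
          (Real.exp_pos _).le
      _ = Real.exp (1 - 2 ^ k * (1 - f)) := by
        rw [← Real.exp_add]
        congr 1
        ring
  have hpos : 0 < 1 - 2 * p := by linarith
  have e5 := (Real.log_le_iff_le_exp hpos).2 e4
  rw [one_div, Real.log_inv]
  linarith

end Run7.h984.PK.AN
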