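import Pool.Agent.Run7.h984.PK.Iface

/-! # PK (helper984), piece B (helper24): independence of the two branches -/

set_option autoImplicit false

open MeasureTheory Measure Finset Filter
open scoped ENNReal Topology
open Pool.Agent.TH996.Parking Pool.Agent.TH996 Pool.Agent.TH996.Park

noncomputable section

namespace Run7.h984.PK.B

theorem meas_Du {V : Type} [DecidableEq V] [MeasurableSpace V] [MeasurableSingletonClass V]
    [Countable V] (up : V → Finset V) (T : ℕ) (y : V) : Measurable (Du up T y) := by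
  have : Du up T y = fun ω => ∑ t ∈ range T, Cn up t y (emb ω) := rfl
  rw [this]
  exact Finset.measurable_fun_sum _ fun t _ => ((measurable_CF up t).1 y).comp measurable_emb

theorem bm_Du {V : Type} [DecidableEq V] [MeasurableSpace V] [MeasurableSingletonClass V]
    [Countable V] (up : V → Finset V) (T : ℕ) (y : V) {v : ℝ} (hv0 : 0 ≤ v) (hv1 : v ≤ 1) :
    BM (fun ω => (1 - v) ^ Du up T y ω) := by
  refine ⟨(measurable_of_countable (fun n : ℕ => (1 - v) ^ n)).comp (meas_Du up T y), 1, fun ω => ?_⟩
  rw [abs_of_nonneg (pow_nonneg (by linarith) _)]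
  exact pow_le_one₀ (by linarith) (by linarith)

theorem piece : S_LOC → S_MIX → S_B := by
  classical
  intro hL hM V _ _ _ _ S up cone hC p hp0 hp1 T x v hv0 hv1
  have hb := bern_prob hp0 hp1
  have hl := law0_prob S ⟨hp0, hp1⟩
  obtain ⟨y, z, hyz, hup⟩ := Finset.card_eq_two.1 (hC.card x)
  have hy : y ∈ up x := by rw [hup]; simp
  have hz : z ∈ up x := by rw [hup]; simp
  have hdis := Set.disjoint_left.1 (hC.disj x y hy z hz hyz)
  rw [hup, prod_pair hyz]
  simp_rw [prod_pair hyz]
  -- the resampling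
  have h1 : Resamp (infinitePi fun _ : V => bern p) (infinitePi fun _ : V => bern p)
      (fun x x' i => if i ∈ cone z then x' i else x i) := hM V Bool (fun _ => bern p) (cone z)
  have h2 : Resamp (infinitePi fun a : ℕ × V × ℕ => stepLaw S.nb S.K a.2.1)
      (infinitePi fun a : ℕ × V × ℕ => stepLaw S.nb S.K a.2.1)
      (fun x x' i => if i ∈ {a : ℕ × V × ℕ | a.2.1 ∈ cone z} then x' i else x i) :=
    hM (ℕ × V × ℕ) V (fun a => stepLaw S.nb S.K a.2.1) {a | a.2.1 ∈ cone z}
  have h3 := (h1.left (infinitePi fun a : ℕ × V × ℕ => stepLaw S.nb S.K a.2.1)).comp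
    (h2.right (infinitePi fun _ : V => bern p))
  have key := Resamp.integral_mul (μ := S.law0 p) (ν := S.law0 p) h3 (bm_Du up T y hv0 hv1) (bm_Du up T z hv0 hv1)
    (fun ω => (1 - v) ^ Du up T z ω) ?_ ?_
  · exact key
  · intro ω ω'
    congr 1
    refine ((hL V up cone hC.self hC.sub _ ω y ?_).2.2 ?_ T).2.2
    · intro w hw hwy
      have hwz : w ∉ cone z := hdis hw
      exact ⟨if_neg hwz, fun t i => if_neg hwz⟩
    · exact if_neg (hdis (hC.self y))
  · intro ω ω'
    congr 1
    refine ((hL V up cone hC.self hC.sub _ ω' z ?_).2.2 ?_ T).2.2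
    · intro w hw hwz
      exact ⟨if_pos hw, fun t i => if_pos hw⟩
    · exact if_pos (hC.self z)

end Run7.h984.PK.B
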