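import Pool.Agent.Run7.h984.PK.Iface

/-! # Piece C of project PK (helper270) -/

set_option autoImplicit false

open MeasureTheory Measure Finset
open Pool.Agent.TH996.Parking Pool.Agent.TH996 Pool.Agent.TH996.Park

namespace Run7.h984.PK.C

open Run7.h984.PK

section det

variable {V : Type} [DecidableEq V] (up : V → Finset V)

lemma Du_succ (T : ℕ) (y : V) (ω : Om0 V) : Du up (T + 1) y ω = Du up T y ω + Cu up T y ω := by
  unfold Du
  rw [sum_range_succ]

lemma Vu_succ (T : ℕ) (y : V) (ω : Om0 V) : Vu up (T + 1) y ω = Vu up T y ω + Au up T y ω := by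
  unfold Vu
  rw [sum_range_succ]

lemma Du_zero (y : V) (ω : Om0 V) : Du up 0 y ω = 0 := rfl

lemma Vu_zero (y : V) (ω : Om0 V) : Vu up 0 y ω = 0 := rfl

lemma Cu_succ (t : ℕ) (y : V) (ω : Om0 V) : Cu up (t + 1) y ω = Au up t y ω - Fu up t y ω := rfl

lemma Fu_succ (t : ℕ) (y : V) (ω : Om0 V) : Fu up (t + 1) y ω = Fu up t y ω - Au up t y ω := rfl

lemma Cu_zero (y : V) (ω : Om0 V) : Cu up 0 y ω = if ω.1 y then 1 else 0 := rfl

lemma Fu_zero (y : V) (ω : Om0 V) : Fu up 0 y ω = if ω.1 y then 0 else 1 := rfl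

lemma det_true (T : ℕ) (y : V) (ω : Om0 V) (h : ω.1 y = true) :
    Fu up T y ω = 0 ∧ Du up (T + 1) y ω = 1 + Vu up T y ω := by
  induction T with
  | zero =>
    constructor
    · rw [Fu_zero, if_pos h]
    · rw [Du_succ, Cu_zero, if_pos h, Du_zero, Vu_zero]
  | succ T ih =>
    obtain ⟨h1, h2⟩ := ih
    constructor
    · rw [Fu_succ, h1]
      omega
    · rw [Du_succ, h2, Vu_succ, Cu_succ, h1]
      omega

lemma det_false (T : ℕ) (y : V) (ω : Om0 V) (h : ω.1 y = false) :
    Fu up T y ω = 1 - Vu up T y ω ∧ Du up (T + 1) y ω = Vu up T y ω - 1 := by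
  have h' : ¬ ω.1 y = true := by
    rw [h]
    exact Bool.false_ne_true
  induction T with
  | zero =>
    constructor
    · rw [Fu_zero, if_neg h', Vu_zero]
    · rw [Du_succ, Cu_zero, if_neg h', Du_zero, Vu_zero]
  | succ T ih =>
    obtain ⟨h1, h2⟩ := ih
    constructor
    · rw [Fu_succ, h1, Vu_succ]
      omega
    · rw [Du_succ, h2, Vu_succ, Cu_succ, h1]
      omega

end det

lemma bm_pow {V : Type} [DecidableEq V] [MeasurableSpace V] [MeasurableSingletonClass V]
    (up : V → Finset V) (T : ℕ) (y : V) (c : ℝ) (h0 : 0 ≤ c) (h1 : c ≤ 1) :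
    BM fun ω : Om0 V => c ^ Vu up T y ω := by
  have hm : Measurable fun ω : Om0 V => Vu up T y ω := by
    unfold Vu
    refine Finset.measurable_fun_sum _ fun t _ => ?_
    exact ((measurable_CF up t).2.2 y).comp measurable_emb
  refine ⟨(measurable_of_countable (fun n : ℕ => c ^ n)).comp hm, 1, fun ω => ?_⟩
  rw [abs_of_nonneg (pow_nonneg h0 _)]
  exact pow_le_one₀ h0 h1

lemma bm_bool {V : Type} [MeasurableSpace V] (y : V) (g : Bool → ℝ) :
    BM fun ω : Om0 V => g (ω.1 y) := by
  refine ⟨(measurable_of_countable g).comp ((measurable_pi_apply y).comp measurable_fst),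
    |g true| + |g false|, fun ω => ?_⟩
  cases ω.1 y
  · linarith [abs_nonneg (g true)]
  · linarith [abs_nonneg (g false)]

/-- C -/
theorem piece : S_LOC → S_C := by
  intro hLOC V _ _ _ _ S up cone hC p hp0 hp1 T y v hv0 hv1
  have hp : 0 ≤ p ∧ p ≤ 1 := ⟨hp0, hp1⟩
  have hprob := bern_prob hp0 hp1
  have hlaw := law0_prob S hp
  have hv : (1 : ℝ) - v ≠ 0 := by linarith
  -- resampling of the initial state of `y`
  have hres : Resamp (S.law0 p) (bern p)
      (fun (ω : Om0 V) x => (Function.update ω.1 y x, ω.2)) :=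
    (Resamp.pi (fun _ : V => bern p) y).left
      (infinitePi fun a : ℕ × V × ℕ => stepLaw S.nb S.K a.2.1)
  have hV : ∀ (ω : Om0 V) (x : Bool),
      Vu up T y (Function.update ω.1 y x, ω.2) = Vu up T y ω := by
    intro ω x
    refine (hLOC V up cone hC.self hC.sub _ _ y ?_).2.1 T
    intro z _ hz
    exact ⟨Function.update_of_ne hz _ _, fun t i => rfl⟩
  have hind : ∀ (c : ℝ), 0 ≤ c → c ≤ 1 → ∀ g : Bool → ℝ,
      ∫ ω, c ^ Vu up T y ω * g (ω.1 y) ∂(S.law0 p) =
        (∫ ω, c ^ Vu up T y ω ∂(S.law0 p)) * (p * g true + (1 - p) * g false) := by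
    intro c h0 h1 g
    rw [← integral_bern hp0 hp1 g]
    refine hres.integral_mul (bm_pow up T y c h0 h1) (bm_bool y g) g ?_ ?_
    · intro ω x
      show c ^ Vu up T y (Function.update ω.1 y x, ω.2) = _
      rw [hV]
    · intro ω x
      show g (Function.update ω.1 y x y) = g x
      rw [Function.update_self]
  have hA := bm_pow up T y (1 - v) (by linarith) (by linarith)
  have hB := bm_pow up T y 0 le_rfl zero_le_one
  -- pointwise
  have hpt : ∀ ω : Om0 V, (1 - v) ^ Du up (T + 1) y ω =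
      ((1 - v) ^ Vu up T y ω * (if ω.1 y = true then (1 - v) else (1 - v)⁻¹)) +
        ((0 : ℝ) ^ Vu up T y ω * (if ω.1 y = true then 0 else (1 - (1 - v)⁻¹))) := by
    intro ω
    by_cases h : ω.1 y = true
    · rw [(det_true up T y ω h).2, if_pos h, if_pos h, pow_add, pow_one]
      ring
    · rw [(det_false up T y ω (Bool.eq_false_iff.2 h)).2, if_neg h, if_neg h]
      rcases Nat.eq_zero_or_pos (Vu up T y ω) with h1 | h1
      · rw [h1]
        simp
      · obtain ⟨n, hn⟩ := Nat.exists_eq_succ_of_ne_zero h1.ne'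
        rw [hn, Nat.succ_eq_add_one, Nat.add_sub_cancel, zero_pow (Nat.succ_ne_zero n), zero_mul,
          add_zero, pow_succ, mul_assoc, mul_inv_cancel₀ hv, mul_one]
  have h1 := hind (1 - v) (by linarith) (by linarith)
    (fun b => if b = true then (1 - v) else (1 - v)⁻¹)
  have h2 := hind 0 le_rfl zero_le_one (fun b => if b = true then 0 else (1 - (1 - v)⁻¹))
  have hi1 : Integrable (fun ω : Om0 V => (1 - v) ^ Vu up T y ω *
      (if ω.1 y = true then (1 - v) else (1 - v)⁻¹)) (S.law0 p) :=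
    (hA.mul (bm_bool y (fun b => if b = true then (1 - v) else (1 - v)⁻¹))).integrable _
  have hi2 : Integrable (fun ω : Om0 V => (0 : ℝ) ^ Vu up T y ω *
      (if ω.1 y = true then 0 else (1 - (1 - v)⁻¹))) (S.law0 p) :=
    (hB.mul (bm_bool y (fun b => if b = true then 0 else (1 - (1 - v)⁻¹)))).integrable _
  simp_rw [hpt]
  rw [integral_add hi1 hi2, h1, h2]
  simp only [if_true, Bool.false_eq_true, if_false]
  field_simp
  ring

end Run7.h984.PK.C

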