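import Pool.Agent.Run7.h984.PK.Iface

/-!
# F0: the probability of no visit
-/

set_option autoImplicit false

open MeasureTheory Measure Finset Filter
open scoped ENNReal Topology
open Pool.Agent.TH996.Parking Pool.Agent.TH996 Pool.Agent.TH996.Park

namespace Run7.h984.PK.F0

open Run7.h984.PK

section

variable {V : Type} [DecidableEq V]

lemma Fu_eq (up : V → Finset V) (T : ℕ) (y : V) (ω : Om0 V) :
    Fu up T y ω = f0 ω.1 y - Vu up T y ω := by
  induction T with
  | zero =>
    have h2 : Vu up 0 y ω = 0 := by simp [Vu]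
    rw [h2, Nat.sub_zero]
    rfl
  | succ T ih =>
    have h1 : Fu up (T + 1) y ω = Fu up T y ω - Au up T y ω := rfl
    have h2 : Vu up (T + 1) y ω = Vu up T y ω + Au up T y ω := sum_range_succ _ _
    rw [h1, ih, h2, Nat.sub_sub]

lemma f0_mul (η : V → Bool) (y : V) (n : ℕ) : ((f0 η y - n : ℕ) : ℝ) = (0 : ℝ) ^ n * (f0 η y : ℝ) := by
  unfold f0
  by_cases h : η y = true
  · simp [h]
  · cases n with
    | zero => simp [h]
    | succ n => simp [h]

variable [MeasurableSpace V] [MeasurableSingletonClass V] [Countable V]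

lemma bm_zero (up : V → Finset V) (T : ℕ) (y : V) : BM (fun ω : Om0 V => (0 : ℝ) ^ Vu up T y ω) := by
  have hV : Measurable (fun ω : Om0 V => Vu up T y ω) := by
    unfold Vu
    refine Finset.measurable_fun_sum _ fun t _ => ?_
    exact ((measurable_CF up t).2.2 y).comp measurable_emb
  refine ⟨(measurable_of_countable (fun n : ℕ => (0 : ℝ) ^ n)).comp hV, 1, fun ω => ?_⟩
  rcases Nat.eq_zero_or_pos (Vu up T y ω) with h | h
  · rw [h]; simp
  · rw [zero_pow h.ne']; simp

omit [DecidableEq V] [MeasurableSpace V] [MeasurableSingletonClass V] [Countable V] in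
lemma bm_f0 [MeasurableSpace V] (y : V) : BM (fun ω : Om0 V => (f0 ω.1 y : ℝ)) := by
  refine ⟨(measurable_of_countable (fun b : Bool => ((if b then 0 else 1 : ℕ) : ℝ))).comp
    ((measurable_pi_apply y).comp measurable_fst), 1, fun ω => ?_⟩
  unfold f0
  split_ifs <;> simp

end

theorem piece : S_AE → S_LOC → S_F0 := by
  intro hAE hLOC V _ _ _ _ S up cone hcone p h0 h1 T y
  have hp : 0 ≤ p ∧ p ≤ 1 := ⟨h0, h1⟩
  have hκ : (0 : ℝ) ≤ 0 ∧ (0 : ℝ) ≤ 1 := ⟨le_rfl, zero_le_one⟩
  have i1 := bern_prob hp.1 hp.2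
  have i2 := law0_prob S hp
  have e1 := balance S hp hκ y T
  have e2 := aT_nonneg S (p := p) (κ := 0) y T
  have e3 : fT S p 0 y T = ∫ ω, (Fn S.nb T y (emb ω) : ℝ) ∂(S.law0 p) := by
    unfold fT
    exact law_emb S hp (bm_F S.nb T y)
  have e4 : ∫ ω, (Fn S.nb T y (emb ω) : ℝ) ∂(S.law0 p) =
      ∫ ω, (0 : ℝ) ^ Vu up T y ω * (f0 ω.1 y : ℝ) ∂(S.law0 p) := by
    refine integral_congr_ae ?_
    filter_upwards [hAE V S up cone hcone p h0 h1] with ω hω
    rw [(hω T y).2.1, Fu_eq, f0_mul]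
  have hR : Resamp (S.law0 p) (bern p) (fun (ω : Om0 V) (b : Bool) => (Function.update ω.1 y b, ω.2)) := by
    unfold Tri.law0
    exact (Resamp.pi (fun _ : V => bern p) y).left _
  have e5 : ∫ ω, (0 : ℝ) ^ Vu up T y ω * (f0 ω.1 y : ℝ) ∂(S.law0 p) =
      (∫ ω, (0 : ℝ) ^ Vu up T y ω ∂(S.law0 p)) * ∫ b, (if b then (0 : ℝ) else 1) ∂(bern p) := by
    refine hR.integral_mul (bm_zero up T y) (bm_f0 y) (fun b => if b then (0 : ℝ) else 1) ?_ ?_
    · intro ω b
      have h2 := (hLOC V up cone hcone.self hcone.sub (Function.update ω.1 y b, ω.2) ω y (by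
        intro z _ hzy
        exact ⟨Function.update_of_ne hzy _ _, fun t i => rfl⟩)).2.1 T
      change (0 : ℝ) ^ Vu up T y (Function.update ω.1 y b, ω.2) = _
      rw [h2]
    · intro ω b
      change ((f0 (Function.update ω.1 y b) y : ℕ) : ℝ) = _
      unfold f0
      rw [Function.update_self]
      cases b <;> simp
  have e6 : ∫ b, (if b then (0 : ℝ) else 1) ∂(bern p) = 1 - p := by
    rw [integral_bern hp.1 hp.2]
    simp
  rw [e3, e4, e5, e6] at e1
  rw [zero_mul, zero_add] at e1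
  nlinarith

end Run7.h984.PK.F0
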