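import Pool.Agent.Run7.h984.PK.Iface

/-! GR1 (helper183) -/

set_option autoImplicit false

namespace Run7.h984.PK.GR1

open Run7.h984.PK

theorem piece : S_GR1 := by
  have key : ∀ (w x : FG), gr.Reachable x (x * w) := by
    intro w
    induction w using FreeGroup.induction_on with
    | C1 => intro x; rw [mul_one]
    | of s =>
      intro x
      exact SimpleGraph.Adj.reachable (show gr.Adj x (x * FreeGroup.of s) from ⟨s, Or.inl rfl⟩)
    | inv_of s _ =>
      intro x
      refine SimpleGraph.Adj.reachable (show gr.Adj x (x * (FreeGroup.of s)⁻¹) from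
        ⟨s, Or.inr ?_⟩)
      rw [inv_mul_cancel_right]
    | mul a b ha hb =>
      intro x
      rw [← mul_assoc]
      exact (ha x).trans (hb (x * a))
  constructor
  · have hp : gr.Preconnected := by
      intro x y
      have := key (x⁻¹ * y) x
      rwa [mul_inv_cancel_left] at this
    exact ⟨hp⟩
  · refine ⟨fun v => ?_⟩
    have hfin : (gr.neighborSet v).Finite := by
      refine (((Set.finite_range fun s : Bool => v * FreeGroup.of s).union
        (Set.finite_range fun s : Bool => v * (FreeGroup.of s)⁻¹)).subset ?_)
      rintro y ⟨s, h | h⟩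
      · exact Or.inl ⟨s, h.symm⟩
      · exact Or.inr ⟨s, by rw [h]; exact mul_inv_cancel_right _ _⟩
    exact hfin.fintype

end Run7.h984.PK.GR1
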