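import Pool.Agent.Run7.h984.PK.Iface

/-! # Piece GR2 of project PK (helper270) -/

set_option autoImplicit false

open Finset
open Pool.Agent.TH996.Parking Pool.Agent.TH996 Pool.Agent.TH996.Park

namespace Run7.h984.PK.GR2

open Run7.h984.PK

lemma mem_tra {φ : Equiv.Perm FG} : φ ∈ tra ↔ ∃ g : FG, ∀ x, φ x = g * x := by
  constructor
  · rintro ⟨g, rfl⟩
    exact ⟨g, fun x => rfl⟩
  · rintro ⟨g, hg⟩
    exact ⟨g, Equiv.ext fun x => (hg x).symm⟩

lemma ker_eq (x y : FG) (h : ∃ s : Bool, x = y * FreeGroup.of s) : ker x y = 1 / 2 := by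
  unfold ker
  rw [if_pos h]

lemma ker_eq0 (x y : FG) (h : ¬ ∃ s : Bool, x = y * FreeGroup.of s) : ker x y = 0 := by
  unfold ker
  rw [if_neg h]

lemma kernel [gr.LocallyFinite] : IsKernel gr ker where
  nonneg u v := by
    by_cases h : ∃ s : Bool, u = v * FreeGroup.of s
    · rw [ker_eq _ _ h]
      norm_num
    · rw [ker_eq0 _ _ h]
  supp u v h := by
    apply ker_eq0
    rintro ⟨s, hs⟩
    exact h ⟨s, Or.inr hs⟩
  sum_one u := by
    classical
    have hne : u * (FreeGroup.of false)⁻¹ ≠ u * (FreeGroup.of true)⁻¹ := by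
      intro h
      have h1 := inv_injective (mul_left_cancel h)
      exact Bool.false_ne_true (FreeGroup.of_injective h1)
    have hk : ∀ s : Bool, ker u (u * (FreeGroup.of s)⁻¹) = 1 / 2 := by
      intro s
      apply ker_eq
      exact ⟨s, by rw [inv_mul_cancel_right]⟩
    have hsub : ({u * (FreeGroup.of false)⁻¹, u * (FreeGroup.of true)⁻¹} : Finset FG) ⊆
        gr.neighborFinset u := by
      intro v hv
      rw [SimpleGraph.mem_neighborFinset]
      rw [mem_insert, mem_singleton] at hv
      rcases hv with rfl | rfl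
      · exact ⟨false, Or.inr (by rw [inv_mul_cancel_right])⟩
      · exact ⟨true, Or.inr (by rw [inv_mul_cancel_right])⟩
    rw [← Finset.sum_subset hsub, Finset.sum_pair hne, hk, hk]
    · norm_num
    · intro v _ hv
      apply ker_eq0
      rintro ⟨s, hs⟩
      apply hv
      have h1 : v = u * (FreeGroup.of s)⁻¹ := by rw [hs, mul_inv_cancel_right]
      rw [mem_insert, mem_singleton, h1]
      cases s
      · exact Or.inl rfl
      · exact Or.inr rfl

lemma shift (g u v : FG) (s : Bool) : g * v = g * u * FreeGroup.of s ↔ v = u * FreeGroup.of s := by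
  rw [mul_assoc, mul_right_inj]

lemma aut : IsAut gr ker tra where
  adj φ hφ u v := by
    obtain ⟨g, hg⟩ := mem_tra.1 hφ
    rw [hg, hg]
    show (∃ s : Bool, g * v = g * u * FreeGroup.of s ∨ g * u = g * v * FreeGroup.of s) ↔
      ∃ s : Bool, v = u * FreeGroup.of s ∨ u = v * FreeGroup.of s
    simp only [shift]
  ker φ hφ u v := by
    obtain ⟨g, hg⟩ := mem_tra.1 hφ
    rw [hg, hg]
    by_cases h : ∃ s : Bool, u = v * FreeGroup.of s
    · rw [ker_eq u v h]
      apply ker_eq
      obtain ⟨s, hs⟩ := h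
      exact ⟨s, (shift g v u s).2 hs⟩
    · rw [ker_eq0 u v h]
      apply ker_eq0
      rintro ⟨s, hs⟩
      exact h ⟨s, (shift g v u s).1 hs⟩

lemma transitive : IsTransitive tra := by
  intro u v
  refine ⟨MulAction.toPermHom FG FG (v * u⁻¹), mem_tra.2 ⟨v * u⁻¹, fun x => rfl⟩, ?_⟩
  show v * u⁻¹ * u = v
  rw [inv_mul_cancel_right]

lemma stab_eq (u v : FG) : stabOrbit tra u v = {v} := by
  ext w
  constructor
  · rintro ⟨φ, hφ, h1, h2⟩
    obtain ⟨g, hg⟩ := mem_tra.1 hφ
    rw [hg] at h1 h2
    have h3 : g = 1 := mul_eq_right.1 h1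
    rw [h3, one_mul] at h2
    exact h2.symm
  · intro hw
    rw [Set.mem_singleton_iff] at hw
    exact ⟨1, one_mem _, rfl, hw.symm⟩

lemma unimodular : IsUnimodular tra := by
  intro u v
  rw [stab_eq, stab_eq, Set.ncard_singleton, Set.ncard_singleton]
  exact ⟨Set.finite_singleton _, rfl⟩

lemma pow_inj : Function.Injective fun n : ℕ => (FreeGroup.of false : FG) ^ n := by
  intro m n h
  have h1 := congrArg (FreeGroup.lift fun _ : Bool => Multiplicative.ofAdd (1 : ℤ)) h
  simp only [map_pow, FreeGroup.lift_apply_of] at h1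
  have h2 := congrArg Multiplicative.toAdd h1
  rw [toAdd_pow, toAdd_pow, toAdd_ofAdd, nsmul_eq_mul, nsmul_eq_mul, mul_one, mul_one] at h2
  exact_mod_cast h2

lemma accessible : IsInfinitelyAccessible gr ker tra := by
  refine ⟨MulAction.toPermHom FG FG (FreeGroup.of false),
    mem_tra.2 ⟨FreeGroup.of false, fun x => rfl⟩, 1, ?_, ?_⟩
  · have h : (fun n : ℕ => ((MulAction.toPermHom FG FG (FreeGroup.of false)) ^ n) (1 : FG)) =
        fun n : ℕ => (FreeGroup.of false : FG) ^ n := by
      funext n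
      rw [← map_pow]
      show (FreeGroup.of false : FG) ^ n * 1 = _
      rw [mul_one]
    rw [h]
    exact Set.infinite_range_of_injective pow_inj
  · apply Relation.ReflTransGen.single
    have h : MulAction.toPermHom FG FG (FreeGroup.of false) (1 : FG) = FreeGroup.of false := by
      show (FreeGroup.of false : FG) * 1 = _
      rw [mul_one]
    rw [h]
    refine ⟨⟨false, Or.inr (by rw [one_mul])⟩, ?_⟩
    rw [ker_eq _ _ ⟨false, by rw [one_mul]⟩]
    norm_num

/-- GR2 -/
theorem piece : S_GR2 := by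
  intro _
  exact ⟨kernel, aut, transitive, unimodular, accessible⟩

end Run7.h984.PK.GR2

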