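import Pool.Agent.Run7.h984.PK.Iface

/-! Piece `GR3` of helper984's project PK: positive words in the free group (helper594). -/

set_option autoImplicit false

noncomputable section

namespace Run7.h984.PK.GR3

open Run7.h984.PK

/-- the element of the free group given by a positive word -/
def pw (w : List Bool) : FG := (w.map FreeGroup.of).prod

lemma pw_mk (w : List Bool) : pw w = FreeGroup.mk (w.map fun s => (s, true)) := by
  induction w with
  | nil => rfl
  | cons s w ih =>
    have h1 : pw (s :: w) = FreeGroup.of s * pw w := by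
      simp [pw]
    rw [h1, ih]
    rfl

lemma pw_red (w : List Bool) : FreeGroup.reduce (w.map fun s => (s, true)) =
    w.map fun s => (s, true) := by
  induction w with
  | nil => rfl
  | cons s w ih =>
    rw [List.map_cons, FreeGroup.reduce.cons, ih]
    cases w with
    | nil => rfl
    | cons s' w => simp

lemma pw_inj {w w' : List Bool} (h : pw w = pw w') : w = w' := by
  have h1 := congrArg FreeGroup.toWord h
  rw [pw_mk, pw_mk, FreeGroup.toWord_mk, FreeGroup.toWord_mk, pw_red, pw_red] at h1
  have h2 := congrArg (List.map Prod.fst) h1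
  simpa [Function.comp_def] using h2

lemma pw_cons (s : Bool) (w : List Bool) : FreeGroup.of s * pw w = pw (s :: w) := by
  simp [pw]

lemma mem_up {x y : FG} : y ∈ upF x ↔ ∃ s : Bool, y = x * FreeGroup.of s := by
  unfold upF
  rw [Finset.mem_insert, Finset.mem_singleton]
  constructor
  · rintro (h | h)
    · exact ⟨false, h⟩
    · exact ⟨true, h⟩
  · rintro ⟨s, h⟩
    cases s
    · exact Or.inl h
    · exact Or.inr h

lemma mem_cone {x y : FG} : y ∈ coneF x ↔ ∃ w : List Bool, y = x * pw w := Iff.rfl

theorem piece : S_GR3 := by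
  refine ⟨?_, ?_, ?_, ?_, ?_, ?_⟩
  · intro y
    exact ⟨[], by simp⟩
  · intro y z hz w hw
    obtain ⟨s, rfl⟩ := mem_up.1 hz
    obtain ⟨l, rfl⟩ := mem_cone.1 hw
    rw [mul_assoc, pw_cons]
    refine ⟨⟨s :: l, rfl⟩, fun h => ?_⟩
    have h1 : pw (s :: l) = pw [] := by
      have := mul_eq_left.1 h
      rw [this]
      rfl
    exact absurd (pw_inj h1) (by simp)
  · intro x y hy z hz hyz
    obtain ⟨s, rfl⟩ := mem_up.1 hy
    obtain ⟨s', rfl⟩ := mem_up.1 hz
    rw [Set.disjoint_left]
    intro a ha hb
    obtain ⟨l, rfl⟩ := mem_cone.1 ha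
    obtain ⟨l', hl'⟩ := mem_cone.1 hb
    rw [mul_assoc, mul_assoc, pw_cons, pw_cons] at hl'
    have h1 := pw_inj (mul_left_cancel hl')
    have h2 : s = s' := (List.cons.inj h1).1
    exact hyz (by rw [h2])
  · intro x
    unfold upF
    rw [Finset.card_pair]
    intro h
    have h1 := FreeGroup.of_injective (mul_left_cancel h)
    exact absurd h1 (by simp)
  · intro x y hy
    obtain ⟨s, rfl⟩ := mem_up.1 hy
    exact ⟨⟨s, Or.inl rfl⟩, if_pos ⟨s, rfl⟩⟩
  · intro x y hy
    exact if_neg fun h => hy (mem_up.2 h)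

end Run7.h984.PK.GR3
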