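import Pool.Agent.Run7.h984.PK.Iface

/-!
# Piece LIM (helper398)
-/

set_option autoImplicit false

open Filter
open scoped Topology

namespace Run7.h984.PK.LIM

theorem piece : S_LIM := by
  intro γ hγ
  have h1 : Tendsto (fun x : ℝ => Real.log x * x ^ γ) (𝓝[>] 0) (𝓝 0) :=
    tendsto_log_mul_rpow_nhdsGT_zero hγ
  have h2 : Tendsto (fun x : ℝ => x ^ γ) (𝓝[>] 0) (𝓝 0) := by
    have h3 := (Real.continuousAt_rpow_const 0 γ (Or.inr hγ.le)).tendsto
    rw [Real.zero_rpow hγ.ne'] at h3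
    exact h3.mono_left nhdsWithin_le_nhds
  have h4 : Tendsto (fun x : ℝ => (1 - Real.log 2) * x ^ γ - Real.log x * x ^ γ) (𝓝[>] 0) (𝓝 0) := by
    have := (h2.const_mul (1 - Real.log 2)).sub h1
    simpa using this
  have h5 : Tendsto (fun p : ℝ => 1 / 2 - p) (𝓝[<] (1 / 2)) (𝓝[>] 0) := by
    apply tendsto_nhdsWithin_iff.2
    constructor
    · have : Tendsto (fun p : ℝ => 1 / 2 - p) (𝓝 (1 / 2)) (𝓝 (1 / 2 - 1 / 2)) :=
        (continuous_const.sub continuous_id).tendsto _
      rw [sub_self] at this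
      exact this.mono_left nhdsWithin_le_nhds
    · filter_upwards [self_mem_nhdsWithin] with p hp
      have hp' : p < 1 / 2 := hp
      exact sub_pos.2 hp'
  refine (h4.comp h5).congr' ?_
  filter_upwards [self_mem_nhdsWithin] with p hp
  have hp0 : p < 1 / 2 := hp
  have hp' : 0 < 1 / 2 - p := sub_pos.2 hp0
  simp only [Function.comp]
  have h6 : Real.log (1 / (1 - 2 * p)) = - Real.log 2 - Real.log (1 / 2 - p) := by
    have h7 : 1 - 2 * p = 2 * (1 / 2 - p) := by ring
    rw [one_div, Real.log_inv, h7, Real.log_mul (by norm_num) hp'.ne']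
    ring
  rw [h6]
  ring

end Run7.h984.PK.LIM
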