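import Pool.Agent.Run7.h984.PK.Iface

/-!
# Project PK (helper984), piece LOC (helper379): deterministic locality
-/

set_option autoImplicit false

open Finset Pool.Agent.TH996.Parking Pool.Agent.TH996 Pool.Agent.TH996.Park

namespace Run7.h984.PK.LOC

open Run7.h984.PK

section

variable {V : Type} [DecidableEq V] (up : V → Finset V)

theorem Au_eq (t : ℕ) (x : V) (ω : Om0 V) : Au up t x ω =
    ∑ y ∈ up x, ((range (Cu up t y ω)).filter
      fun i => (false = false) ∧ ω.2 (t, y, i) = x).card := rfl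

theorem Cu_succ (t : ℕ) (x : V) (ω : Om0 V) :
    Cu up (t + 1) x ω = Au up t x ω - Fu up t x ω := rfl

theorem Fu_succ (t : ℕ) (x : V) (ω : Om0 V) :
    Fu up (t + 1) x ω = Fu up t x ω - Au up t x ω := rfl

theorem Cu_zero (x : V) (ω : Om0 V) : Cu up 0 x ω = if ω.1 x then 1 else 0 := rfl

theorem Fu_zero (x : V) (ω : Om0 V) : Fu up 0 x ω = if ω.1 x then 0 else 1 := rfl

end

theorem piece : S_LOC := by
  intro V _ up cone hself hsub
  -- arrivals from the cars
  have hA : ∀ (t : ℕ) (ω ω' : Om0 V) (y : V),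
      (∀ z ∈ cone y, z ≠ y → ω.1 z = ω'.1 z ∧ ∀ t i, ω.2 (t, z, i) = ω'.2 (t, z, i)) →
      (∀ z ∈ up y, Cu up t z ω = Cu up t z ω') → Au up t y ω = Au up t y ω' := by
    intro t ω ω' y h hC
    rw [Au_eq, Au_eq]
    refine Finset.sum_congr rfl fun z hz => ?_
    have h1 := hsub y z hz z (hself z)
    have h2 := (h z h1.1 h1.2).2
    rw [hC z hz]
    simp only [h2]
  have key : ∀ (t : ℕ) (ω ω' : Om0 V) (y : V),
      (∀ z ∈ cone y, z ≠ y → ω.1 z = ω'.1 z ∧ ∀ t i, ω.2 (t, z, i) = ω'.2 (t, z, i)) →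
      ω.1 y = ω'.1 y → Cu up t y ω = Cu up t y ω' ∧ Fu up t y ω = Fu up t y ω' := by
    intro t
    induction t with
    | zero =>
      intro ω ω' y _ hy
      rw [Cu_zero, Cu_zero, Fu_zero, Fu_zero, hy]
      exact ⟨rfl, rfl⟩
    | succ t ih =>
      intro ω ω' y h hy
      have h1 : Au up t y ω = Au up t y ω' := hA t ω ω' y h fun z hz => by
        have h2 := hsub y z hz z (hself z)
        exact (ih ω ω' z (fun w hw _ => h w (hsub y z hz w hw).1 (hsub y z hz w hw).2)
          (h z h2.1 h2.2).1).1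
      have h3 := (ih ω ω' y h hy).2
      rw [Cu_succ, Cu_succ, Fu_succ, Fu_succ, h1, h3]
      exact ⟨rfl, rfl⟩
  intro ω ω' y h
  have hAu : ∀ t, Au up t y ω = Au up t y ω' := fun t => hA t ω ω' y h fun z hz => by
    have h2 := hsub y z hz z (hself z)
    exact (key t ω ω' z (fun w hw _ => h w (hsub y z hz w hw).1 (hsub y z hz w hw).2)
      (h z h2.1 h2.2).1).1
  refine ⟨hAu, fun T => Finset.sum_congr rfl fun t _ => hAu t, fun hy T => ⟨(key T ω ω' y h hy).1,
    (key T ω ω' y h hy).2, Finset.sum_congr rfl fun t _ => (key t ω ω' y h hy).1⟩⟩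

end Run7.h984.PK.LOC
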