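import Pool.Agent.Run7.h984.PK.Iface

set_option autoImplicit false

open MeasureTheory Filter
open scoped Topology

namespace Run7.h984.PK.MEAN

open Run7.h984.PK

theorem bern (ε : ℝ) (h0 : 0 ≤ ε) (h1 : ε ≤ 1) (n : ℕ) :
    (1 - ε) ^ n ≤ 1 - n * ε + (n : ℝ) ^ 2 * ε ^ 2 := by
  induction n with
  | zero => simp
  | succ n ih =>
    rw [pow_succ]
    have h2 : (1 - ε) ^ n * (1 - ε) ≤ (1 - n * ε + (n : ℝ) ^ 2 * ε ^ 2) * (1 - ε) :=
      mul_le_mul_of_nonneg_right ih (by linarith)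
    push_cast
    have hn : (0 : ℝ) ≤ n := Nat.cast_nonneg n
    have h3 : 0 ≤ (n : ℝ) * ε ^ 2 := by positivity
    have h4 : 0 ≤ (n : ℝ) ^ 2 * ε ^ 3 := by positivity
    have h5 : 0 ≤ ε ^ 2 := by positivity
    nlinarith

theorem piece : S_MEAN := by
  intro Ω _ μ _ X hX hN C h
  obtain ⟨N, hN⟩ := hN
  have hXm : Measurable fun ω => (X ω : ℝ) := measurable_from_nat.comp hX
  have hI : Integrable (fun ω => (X ω : ℝ)) μ := by
    refine Integrable.of_bound hXm.aestronglyMeasurable (N : ℝ) (ae_of_all _ fun ω => ?_)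
    rw [Real.norm_of_nonneg (Nat.cast_nonneg _)]
    exact_mod_cast hN ω
  have key : ∀ k : ℕ, ∫ ω, (X ω : ℝ) ∂μ ≤ C + (N : ℝ) ^ 2 * (1 / 2 : ℝ) ^ k := by
    intro k
    have hk := h k
    set ε : ℝ := (1 / 2 : ℝ) ^ k with hε
    have he0 : 0 < ε := by positivity
    have he1 : ε ≤ 1 := pow_le_one₀ (by norm_num) (by norm_num)
    have h2k : (2 : ℝ) ^ k * ε = 1 := by
      rw [hε, ← mul_pow]
      norm_num
    have hmono : ∫ ω, (1 - ε) ^ X ω ∂μ ≤ ∫ ω, (1 - ε * (X ω : ℝ) + (N : ℝ) ^ 2 * ε ^ 2) ∂μ := by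
      apply integral_mono_of_nonneg
      · exact ae_of_all _ fun ω => pow_nonneg (by linarith) _
      · exact ((integrable_const _).sub (hI.const_mul ε)).add (integrable_const _)
      · refine ae_of_all _ fun ω => ?_
        have hb := bern ε he0.le he1 (X ω)
        have hsq : (X ω : ℝ) ^ 2 * ε ^ 2 ≤ (N : ℝ) ^ 2 * ε ^ 2 := by
          have : (X ω : ℝ) ≤ N := by exact_mod_cast hN ω
          have h0 : (0 : ℝ) ≤ X ω := Nat.cast_nonneg _
          gcongr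
        change (1 - ε) ^ X ω ≤ 1 - ε * (X ω : ℝ) + (N : ℝ) ^ 2 * ε ^ 2
        linarith
    have hint : ∫ ω, (1 - ε * (X ω : ℝ) + (N : ℝ) ^ 2 * ε ^ 2) ∂μ
        = 1 - ε * (∫ ω, (X ω : ℝ) ∂μ) + (N : ℝ) ^ 2 * ε ^ 2 := by
      have hA : Integrable (fun _ : Ω => (1 : ℝ)) μ := integrable_const _
      have hB : Integrable (fun ω => ε * (X ω : ℝ)) μ := hI.const_mul ε
      have hAB : Integrable (fun ω => 1 - ε * (X ω : ℝ)) μ := hA.sub hB
      have hD : Integrable (fun _ : Ω => (N : ℝ) ^ 2 * ε ^ 2) μ := integrable_const _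
      rw [integral_add hAB hD, integral_sub hA hB, integral_const_mul]
      simp
    rw [hint] at hmono
    have h2 : (0 : ℝ) < 2 ^ k := by positivity
    have h3 : (2 : ℝ) ^ k * (ε * (∫ ω, (X ω : ℝ) ∂μ) - (N : ℝ) ^ 2 * ε ^ 2) ≤ C := by
      refine le_trans (mul_le_mul_of_nonneg_left ?_ h2.le) hk
      linarith
    have h4 : (2 : ℝ) ^ k * (ε * (∫ ω, (X ω : ℝ) ∂μ) - (N : ℝ) ^ 2 * ε ^ 2)
        = ((2 : ℝ) ^ k * ε) * (∫ ω, (X ω : ℝ) ∂μ) - (N : ℝ) ^ 2 * (((2 : ℝ) ^ k * ε) * ε) := by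
      ring
    rw [h4, h2k] at h3
    linarith
  have hlim : Tendsto (fun k : ℕ => C + (N : ℝ) ^ 2 * (1 / 2 : ℝ) ^ k) atTop
      (𝓝 (C + (N : ℝ) ^ 2 * 0)) :=
    tendsto_const_nhds.add (tendsto_const_nhds.mul
      (tendsto_pow_atTop_nhds_zero_of_lt_one (by norm_num) (by norm_num)))
  rw [mul_zero, add_zero] at hlim
  exact ge_of_tendsto hlim (Eventually.of_forall key)

end Run7.h984.PK.MEAN
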