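import Pool.Agent.Run7.h984.PK.Iface

set_option autoImplicit false

open MeasureTheory Measure Finset Filter
open scoped ENNReal Topology
open Pool.Agent.TH996.Parking Pool.Agent.TH996 Pool.Agent.TH996.Park

noncomputable section

namespace Run7.h984.PK.MIX

theorem piece : S_MIX := by
  classical
  intro ι X _ μ _ A _
  have hm : Measurable (fun q : (ι → X) × (ι → X) => fun i => if i ∈ A then q.2 i else q.1 i) := by
    refine measurable_pi_lambda _ fun i => ?_
    by_cases h : i ∈ A
    · simp only [h, if_true]
      exact (measurable_pi_apply i).comp measurable_snd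
    · simp only [h, if_false]
      exact (measurable_pi_apply i).comp measurable_fst
  refine ⟨hm, ?_⟩
  refine eq_infinitePi μ fun s t ht => ?_
  rw [map_apply hm (.pi s.countable_toSet fun _ _ ↦ ht _)]
  have h1 : (fun q : (ι → X) × (ι → X) => fun i => if i ∈ A then q.2 i else q.1 i) ⁻¹'
      ((s : Set ι).pi t) = ((s.filter (fun i => i ∉ A) : Finset ι) : Set ι).pi t ×ˢ
        ((s.filter (fun i => i ∈ A) : Finset ι) : Set ι).pi t := by
    ext q
    simp only [Set.mem_preimage, Set.mem_pi, Finset.mem_coe, Set.mem_prod, Finset.mem_filter]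
    constructor
    · intro h
      refine ⟨fun i hi => ?_, fun i hi => ?_⟩
      · have := h i hi.1
        rwa [if_neg hi.2] at this
      · have := h i hi.1
        rwa [if_pos hi.2] at this
    · rintro ⟨h1, h2⟩ i hi
      by_cases h : i ∈ A
      · rw [if_pos h]; exact h2 i ⟨hi, h⟩
      · rw [if_neg h]; exact h1 i ⟨hi, h⟩
  rw [h1, prod_prod, infinitePi_pi _ (fun i _ => ht i), infinitePi_pi _ (fun i _ => ht i), mul_comm]
  exact Finset.prod_filter_mul_prod_filter_not s (fun i => i ∈ A) (fun i => μ i (t i))

end Run7.h984.PK.MIX
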