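import Pool.Agent.Run7.h984.PK.Main
import Pool.Agent.Run7.h984.PK.GR1
import Pool.Agent.Run7.h984.PK.GR2
import Pool.Agent.Run7.h984.PK.GR3
import Pool.Agent.Run7.h984.PK.LIM
import Pool.Agent.Run7.h984.PK.AN
import Pool.Agent.Run7.h984.PK.LOC
import Pool.Agent.Run7.h984.PK.MIX
import Pool.Agent.Run7.h984.PK.AE
import Pool.Agent.Run7.h984.PK.A
import Pool.Agent.Run7.h984.PK.B
import Pool.Agent.Run7.h984.PK.C
import Pool.Agent.Run7.h984.PK.F0
import Pool.Agent.Run7.h984.PK.MEAN

/-!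
MP_971c94_pr, Q2: assembly of the pieces (helpers 24, 56, 183, 270, 379, 468, 594, 890, 984 and
others).
-/

set_option autoImplicit false

open MeasureTheory Measure Finset Filter
open scoped ENNReal Topology
open Pool.Agent.TH996.Parking Pool.Agent.TH996 Pool.Agent.TH996.Park

noncomputable section

namespace Run7.h984.PK.All

theorem bnd : S_BOUND :=
  Bound.piece (A.piece LOC.piece) (B.piece LOC.piece MIX.piece) (C.piece LOC.piece)
    (F0.piece AE.piece LOC.piece) AN.piece MEAN.piece AE.piece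

theorem gr1 : S_GR1 := GR1.piece

theorem gr2 [gr.LocallyFinite] : IsKernel gr ker ∧ IsAut gr ker tra ∧ IsTransitive tra ∧
    IsUnimodular tra ∧ IsInfinitelyAccessible gr ker tra := GR2.piece

theorem bound [MeasurableSpace FG] [DiscreteMeasurableSpace FG] [gr.LocallyFinite] (p : ℝ)
    (hp0 : 0 ≤ p) (hp1 : p < 1 / 2) (x : FG) :
    expectedVisits gr ker p x ≤ ENNReal.ofReal (1 + Real.log (1 / (1 - 2 * p))) :=
  Main.bound bnd GR1.piece GR2.piece GR3.piece p hp0 hp1 x

theorem lim [MeasurableSpace FG] [DiscreteMeasurableSpace FG] [gr.LocallyFinite] (x : FG) (γ : ℝ)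
    (hγ : 0 < γ) :
    Tendsto (fun p : ℝ => (expectedVisits gr ker p x).toReal * (1 / 2 - p) ^ γ)
      (𝓝[<] (1 / 2)) (𝓝 0) :=
  Main.lim bnd GR1.piece GR2.piece GR3.piece LIM.piece x γ hγ

end Run7.h984.PK.All
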