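import Pool.Agent.Run7.h984.PK.Iface

set_option autoImplicit false

open MeasureTheory Measure Finset Filter
open scoped ENNReal Topology
open Pool.Agent.TH996.Parking Pool.Agent.TH996 Pool.Agent.TH996.Park

noncomputable section

namespace Run7.h984.PK.Bound

section

variable {V : Type} [DecidableEq V] [MeasurableSpace V] [MeasurableSingletonClass V] [Countable V]

omit [Countable V] in
theorem meas_Cu (up : V → Finset V) (t : ℕ) (x : V) : Measurable (Cu up t x) :=
  ((measurable_CF up t).1 x).comp measurable_emb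

omit [Countable V] in
theorem meas_Au (up : V → Finset V) (t : ℕ) (x : V) : Measurable (Au up t x) :=
  ((measurable_CF up t).2.2 x).comp measurable_emb

omit [Countable V] in
theorem meas_Vu (up : V → Finset V) (T : ℕ) (x : V) : Measurable (Vu up T x) :=
  Finset.measurable_fun_sum _ fun t _ => meas_Au up t x

omit [Countable V] in
theorem meas_Du (up : V → Finset V) (T : ℕ) (x : V) : Measurable (Du up T x) :=
  Finset.measurable_fun_sum _ fun t _ => meas_Cu up t x

omit [MeasurableSpace V] [MeasurableSingletonClass V] [Countable V] in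
theorem Au_le (up : V → Finset V) (t : ℕ) (x : V) (ω : Om0 V) : Au up t x ω ≤ bd up (t + 1) x :=
  ar_le_bd up _ _ _ _ (c0_le ω.1) t x

omit [MeasurableSpace V] [MeasurableSingletonClass V] [Countable V] in
theorem Vu_le (up : V → Finset V) (T : ℕ) (x : V) :
    ∃ N : ℕ, ∀ ω : Om0 V, Vu up T x ω ≤ N :=
  ⟨∑ t ∈ range T, bd up (t + 1) x, fun ω => sum_le_sum fun t _ => Au_le up t x ω⟩

theorem bm_pow {Ω : Type} [MeasurableSpace Ω] {X : Ω → ℕ} (hX : Measurable X) {c : ℝ} (h0 : 0 ≤ c)
    (h1 : c ≤ 1) : BM fun ω => c ^ X ω :=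
  ⟨(measurable_of_countable (fun n : ℕ => c ^ n)).comp hX, 1, fun ω => by
    rw [abs_of_nonneg (pow_nonneg h0 _)]
    exact pow_le_one₀ h0 h1⟩

end

theorem piece (hA : S_A) (hB : S_B) (hC : S_C) (hF0 : S_F0) (hAN : S_AN) (hME : S_MEAN)
    (hAE : S_AE) : S_BOUND := by
  intro V _ _ _ _ S up cone hc p hp0 hp1 T x
  have hp : 0 ≤ p ∧ p ≤ 1 := ⟨hp0, by linarith⟩
  have hprob := law0_prob S hp
  set μ := S.law0 p with hμ
  -- generating functions
  set f : ℕ → V → ℝ → ℝ := fun T x u => ∫ ω, (1 - u) ^ Vu up T x ω ∂μ with hf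
  set h : ℕ → V → ℝ → ℝ := fun T y v => ∫ ω, (1 - v) ^ Du up T y ω ∂μ with hh
  have hz : ∀ T y, ∫ ω, (0 : ℝ) ^ Vu up T y ω ∂μ = f T y 1 := by
    intro T y
    simp only [hf, sub_self]
  have hfh : ∀ T x u, 0 ≤ u → u ≤ 1 → f T x u = ∏ y ∈ up x, h T y (u / 2) := by
    intro T x u h0 h1
    simp only [hf, hh]
    rw [hA V S up cone hc p hp.1 hp.2 T x u h0 h1,
      hB V S up cone hc p hp.1 hp.2 T x (u / 2) (by linarith) (by linarith)]
  have hhf : ∀ T y v, 0 ≤ v → v < 1 → h (T + 1) y v = p * ((1 - v) * f T y v) +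
      (1 - p) * (f T y 1 + (f T y v - f T y 1) / (1 - v)) := by
    intro T y v h0 h1
    have := hC V S up cone hc p hp.1 hp.2 T y v h0 h1
    rw [hz] at this
    exact this
  have hhom : ∀ T x y u, 0 ≤ u → u ≤ 1 → f T x u = f T y u := by
    intro T
    induction T with
    | zero =>
      intro x y u _ _
      simp [hf, Vu]
    | succ T ih =>
      intro x y u h0 h1
      rw [hfh _ _ _ h0 h1, hfh _ _ _ h0 h1]
      have h2 : ∀ z w, h (T + 1) z (u / 2) = h (T + 1) w (u / 2) := by
        intro z w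
        rw [hhf _ _ _ (by linarith) (by linarith), hhf _ _ _ (by linarith) (by linarith),
          ih z w (u / 2) (by linarith) (by linarith), ih z w 1 zero_le_one le_rfl]
      rw [prod_congr rfl fun z _ => h2 z x, prod_const, hc.card,
        prod_congr rfl fun z _ => h2 z x, prod_const, hc.card]
  have hfb : ∀ T x u, 0 ≤ u → u ≤ 1 → 0 ≤ f T x u ∧ f T x u ≤ 1 := by
    intro T x u h0 h1
    have hb := bm_pow (meas_Vu up T x) (c := 1 - u) (by linarith) (by linarith)
    refine ⟨integral_nonneg fun ω => pow_nonneg (by linarith) _, ?_⟩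
    calc f T x u ≤ ∫ ω, (1 : ℝ) ∂μ := integral_mono (hb.integrable _) (integrable_const _)
          fun ω => pow_le_one₀ (by linarith) (by linarith)
      _ = 1 := by simp
  have hAN' := hAN p hp0 hp1 (fun T u => f T x u) (fun T v => h (T + 1) x v)
    (fun T u h0 h1 => hfb T x u h0 h1)
    (fun T v h0 h1 => integral_nonneg fun ω => pow_nonneg (by linarith) _)
    (fun T => by
      have := hF0 V S up cone hc p hp.1 hp.2 T x
      rw [hz] at this
      exact this)
    (fun T v h0 h1 => hhf T x v h0 (by linarith))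
    (fun T v h0 h1 => by
      change f (T + 1) x (2 * v) = h (T + 1) x v * h (T + 1) x v
      rw [hfh _ _ _ (by linarith) (by linarith)]
      have h2 : ∀ z, h (T + 1) z (2 * v / 2) = h (T + 1) x v := by
        intro z
        rw [show 2 * v / 2 = v by ring, hhf _ _ _ h0 (by linarith), hhf _ _ _ h0 (by linarith),
          hhom T z x v h0 (by linarith), hhom T z x 1 zero_le_one le_rfl]
      rw [prod_congr rfl fun z _ => h2 z, prod_const, hc.card, sq])
  have hV : ∫ ω, (Vu up T x ω : ℝ) ∂μ ≤ 1 + Real.log (1 / (1 - 2 * p)) :=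
    hME (Om0 V) μ (Vu up T x) (meas_Vu up T x) (Vu_le up T x) _ (fun k => hAN' T k)
  refine le_trans (le_of_eq ?_) hV
  have hAu : ∀ t, BM fun ω : Om0 V => (Au up t x ω : ℝ) := fun t =>
    ⟨(measurable_of_countable (fun n : ℕ => (n : ℝ))).comp (meas_Au up t x),
      ((bd up (t + 1) x : ℕ) : ℝ), fun ω => by
      rw [abs_of_nonneg (Nat.cast_nonneg _)]
      exact_mod_cast Au_le up t x ω⟩
  have h1 : ∀ ω, (Vu up T x ω : ℝ) = ∑ t ∈ range T, (Au up t x ω : ℝ) := by
    intro ω
    unfold Vu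
    push_cast
    rfl
  simp_rw [h1]
  rw [integral_finsetSum _ fun t _ => (hAu t).integrable _]
  refine sum_congr rfl fun t _ => ?_
  have h2 := integral_A S hp ⟨le_rfl, zero_le_one⟩ x t
  rw [law_emb S hp (bm_A S.nb t x)] at h2
  have h3 : aT S p 0 x t = (1 - 0) * aT S p 0 x t := by ring
  rw [h3, ← h2]
  refine integral_congr_ae ?_
  filter_upwards [hAE V S up cone hc p hp.1 hp.2] with ω hω
  rw [(hω t x).2.2]

end Run7.h984.PK.Bound
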