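import Pool.Agent.TH996.Rec.All

/-!
# MP_971c94_pr, Q2: the parking process on the directed 4-regular tree

`V` is the free group on two generators `a, b`, the cars at `x` move to `x a⁻¹` or `x b⁻¹`. Then the
number of visits `Vis` satisfies `P (Vis = 0) ≤ exp (1 - E Vis)`, and `P (Vis = 0) ≥ 1 - 2 p`, so
`E Vis ≤ 1 + log (1 / (1 - 2 p))`: there is no power law.
-/

set_option autoImplicit false

open MeasureTheory Measure Finset Filter
open scoped ENNReal Topology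
open Pool.Agent.TH996.Parking Pool.Agent.TH996 Pool.Agent.TH996.Park

noncomputable section

namespace Run7.h984.PK

/-- the randomness without killing: initial states, moves -/
abbrev Om0 (V : Type) := (V → Bool) × (ℕ × V × ℕ → V)

section

variable {V : Type} [DecidableEq V]

/-- unparked cars at `x` at time `t`, when only the moves from the elements of `up x` are counted -/
def Cu (up : V → Finset V) (t : ℕ) (x : V) (ω : Om0 V) : ℕ := Cn up t x (emb ω)
/-- free spots -/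
def Fu (up : V → Finset V) (t : ℕ) (x : V) (ω : Om0 V) : ℕ := Fn up t x (emb ω)
/-- arrivals at time `t + 1` -/
def Au (up : V → Finset V) (t : ℕ) (x : V) (ω : Om0 V) : ℕ := An up t x (emb ω)
/-- departures from `x` before time `T` -/
def Du (up : V → Finset V) (T : ℕ) (x : V) (ω : Om0 V) : ℕ := ∑ t ∈ range T, Cu up t x ω
/-- visits to `x` up to time `T` -/
def Vu (up : V → Finset V) (T : ℕ) (x : V) (ω : Om0 V) : ℕ := ∑ t ∈ range T, Au up t x ω

/-- `up x` are the two vertices from which one can move to `x`, `cone x` is the set of the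
vertices from which `x` is accessible. -/
structure Cone (S : Tri V) (up : V → Finset V) (cone : V → Set V) : Prop where
  self : ∀ y, y ∈ cone y
  sub : ∀ y, ∀ z ∈ up y, ∀ w ∈ cone z, w ∈ cone y ∧ w ≠ y
  disj : ∀ x, ∀ y ∈ up x, ∀ z ∈ up x, y ≠ z → Disjoint (cone y) (cone z)
  card : ∀ x, (up x).card = 2
  nb : ∀ x, up x ⊆ S.nb x
  half : ∀ x, ∀ y ∈ up x, S.K y x = 1 / 2
  zero : ∀ x y, y ∉ up x → S.K y x = 0

end

/-- LOC (no hypotheses). Deterministic locality. By induction on `t`, for all `y` at once: `Cu`, `Fu`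
at `y` up to time `t` depend only on the data in `cone y` (initial states in `cone y`, moves in
`cone y` minus `y`): `Au t y = ∑_(z ∈ up y) #{i < Cu t z : ξ (t, z, i) = y}` (`ar_eq`), and
`cone z ⊆ cone y \ {y}` for `z ∈ up y`. `Vu`, `Au` at `y` do not depend on the data at `y`. -/
def S_LOC : Prop := ∀ (V : Type) [DecidableEq V] (up : V → Finset V) (cone : V → Set V),
  (∀ y, y ∈ cone y) → (∀ y, ∀ z ∈ up y, ∀ w ∈ cone z, w ∈ cone y ∧ w ≠ y) →
  ∀ (ω ω' : Om0 V) (y : V),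
  (∀ z ∈ cone y, z ≠ y → ω.1 z = ω'.1 z ∧ ∀ t i, ω.2 (t, z, i) = ω'.2 (t, z, i)) →
  (∀ t, Au up t y ω = Au up t y ω') ∧ (∀ T, Vu up T y ω = Vu up T y ω') ∧
  (ω.1 y = ω'.1 y → ∀ T, Cu up T y ω = Cu up T y ω' ∧ Fu up T y ω = Fu up T y ω' ∧
    Du up T y ω = Du up T y ω')

/-- MIX (no hypotheses). Replacing the coordinates in a set `A` by those of an independent copy
preserves the product measure. PROOF as `map_update` (`Pool/Agent/TH996/Prob.lean`). -/
def S_MIX : Prop := ∀ (ι X : Type) [MeasurableSpace X] (μ : ι → Measure X)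
  [∀ i, IsProbabilityMeasure (μ i)] (A : Set ι) [DecidablePred (· ∈ A)],
  Resamp (infinitePi μ) (infinitePi μ) (fun x x' i => if i ∈ A then x' i else x i)

/-- AE (no hypotheses). Almost surely every `ξ (t, y, i)` is a vertex `x` with `0 < K y x` (countably
many `(t, y, i)`), that is `y ∈ up x`; so in `arr S.nb` only the terms in `up x` are different from
0, and the two processes coincide (induction on `t`). -/
def S_AE : Prop := ∀ (V : Type) [DecidableEq V] [MeasurableSpace V] [MeasurableSingletonClass V]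
  [Countable V] (S : Tri V) (up : V → Finset V) (cone : V → Set V), Cone S up cone →
  ∀ p : ℝ, 0 ≤ p → p ≤ 1 → ∀ᵐ ω ∂(S.law0 p), ∀ t x, Cn S.nb t x (emb ω) = Cu up t x ω ∧
    Fn S.nb t x (emb ω) = Fu up t x ω ∧ An S.nb t x (emb ω) = Au up t x ω

/-- A (hypothesis: LOC). The moves of the cars at the vertices of `up x` are fair coins,
independent of the numbers of cars. -/
def S_A : Prop := ∀ (V : Type) [DecidableEq V] [MeasurableSpace V] [MeasurableSingletonClass V]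
  [Countable V] (S : Tri V) (up : V → Finset V) (cone : V → Set V), Cone S up cone →
  ∀ p : ℝ, 0 ≤ p → p ≤ 1 → ∀ (T : ℕ) (x : V) (u : ℝ), 0 ≤ u → u ≤ 1 →
    ∫ ω, (1 - u) ^ Vu up T x ω ∂(S.law0 p) =
      ∫ ω, ∏ y ∈ up x, (1 - u / 2) ^ Du up T y ω ∂(S.law0 p)

/-- B (hypotheses: LOC, MIX). Independence of the two branches. -/
def S_B : Prop := ∀ (V : Type) [DecidableEq V] [MeasurableSpace V] [MeasurableSingletonClass V]
  [Countable V] (S : Tri V) (up : V → Finset V) (cone : V → Set V), Cone S up cone →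
  ∀ p : ℝ, 0 ≤ p → p ≤ 1 → ∀ (T : ℕ) (x : V) (v : ℝ), 0 ≤ v → v ≤ 1 →
    ∫ ω, ∏ y ∈ up x, (1 - v) ^ Du up T y ω ∂(S.law0 p) =
      ∏ y ∈ up x, ∫ ω, (1 - v) ^ Du up T y ω ∂(S.law0 p)

/-- C (hypothesis: LOC). The initial state of `y` (a car with probability `p`) is independent of
`Vu T y` (`LOC`, `Resamp.pi`, `Resamp.left`, `Resamp.integral_mul`), and `Du (T + 1) y` is
`1 + Vu T y` if there is a car at `y` at time 0, otherwise `Vu T y - 1` (in `ℕ`). Use `0 ^ n` for the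
indicator of `n = 0`. -/
def S_C : Prop := ∀ (V : Type) [DecidableEq V] [MeasurableSpace V] [MeasurableSingletonClass V]
  [Countable V] (S : Tri V) (up : V → Finset V) (cone : V → Set V), Cone S up cone →
  ∀ p : ℝ, 0 ≤ p → p ≤ 1 → ∀ (T : ℕ) (y : V) (v : ℝ), 0 ≤ v → v < 1 →
    ∫ ω, (1 - v) ^ Du up (T + 1) y ω ∂(S.law0 p) =
      p * ((1 - v) * ∫ ω, (1 - v) ^ Vu up T y ω ∂(S.law0 p)) +
      (1 - p) * ((∫ ω, (0 : ℝ) ^ Vu up T y ω ∂(S.law0 p)) +
        ((∫ ω, (1 - v) ^ Vu up T y ω ∂(S.law0 p)) -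
          ∫ ω, (0 : ℝ) ^ Vu up T y ω ∂(S.law0 p)) / (1 - v))

/-- F0 (hypotheses: AE, LOC). `(1 - p) P (Vu T y = 0) = E (Fn T y) ≥ 1 - 2 p` by `balance`
(`Pool/Agent/TH996/Final.lean`) with `κ = 0`, `law_emb`, and
`Fu T y = f0 y * 0 ^ (Vu T y)`, and independence of the initial state of `y` and of `Vu T y`. -/
def S_F0 : Prop := ∀ (V : Type) [DecidableEq V] [MeasurableSpace V] [MeasurableSingletonClass V]
  [Countable V] (S : Tri V) (up : V → Finset V) (cone : V → Set V), Cone S up cone →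
  ∀ p : ℝ, 0 ≤ p → p ≤ 1 → ∀ (T : ℕ) (y : V),
    1 - 2 * p ≤ (1 - p) * ∫ ω, (0 : ℝ) ^ Vu up T y ω ∂(S.law0 p)

/-- AN (no hypotheses). Analysis. `F T u = E (1 - u) ^ Vis_T`. PROOF. For `0 ≤ v ≤ 1/2`, as
`(1 - p) F T 1 ≥ 1 - 2 p` and `F T v ≤ 1`:
`H T v ≤ F T v * (1 - 2 p v + p v²) / (1 - v) - (1 - 2 p) v / (1 - v)
       = F T v + (1 - 2 p) v (F T v - 1) / (1 - v) + F T v * p v² / (1 - v)
       ≤ F T v * (1 + 2 p v²) ≤ F T v * exp (2 p v²) ≤ F T v * exp (v²)`.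
So `F (T + 1) (2 v) ≤ (F T v)² exp (2 v²)`, and by induction on `k`
`F (T + k) 1 ≤ (F T (2^(-k)))^(2^k) * exp (∑_(j=1)^k 2^(j-1) * 2 * 4^(-j)) ≤ … * exp 1`.
As `F (T + k) 1 ≥ (1 - p) F (T + k) 1 ≥ 1 - 2 p`: `(F T (2^(-k)))^(2^k) ≥ (1 - 2 p) / e`, and
`F T u = 1 - (1 - F T u) ≤ exp (-(1 - F T u))`. -/
def S_AN : Prop := ∀ (p : ℝ), 0 ≤ p → p < 1 / 2 → ∀ (F H : ℕ → ℝ → ℝ),
  (∀ T u, 0 ≤ u → u ≤ 1 → 0 ≤ F T u ∧ F T u ≤ 1) → (∀ T v, 0 ≤ v → v ≤ 1 / 2 → 0 ≤ H T v) →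
  (∀ T, 1 - 2 * p ≤ (1 - p) * F T 1) →
  (∀ T v, 0 ≤ v → v ≤ 1 / 2 → H T v = p * ((1 - v) * F T v) +
    (1 - p) * (F T 1 + (F T v - F T 1) / (1 - v))) →
  (∀ T v, 0 ≤ v → v ≤ 1 / 2 → F (T + 1) (2 * v) = H T v * H T v) →
  ∀ T k : ℕ, 2 ^ k * (1 - F T ((1 / 2) ^ k)) ≤ 1 + Real.log (1 / (1 - 2 * p))

/-- MEAN (no hypotheses). If `2^k (1 - E (1 - 2^(-k))^X) ≤ C` for all `k`, `X` a bounded natural
number valued variable, then `E X ≤ C`: `1 - (1 - ε)^n ≥ n ε - n² ε²`, let `k → ∞`. -/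
def S_MEAN : Prop := ∀ (Ω : Type) [MeasurableSpace Ω] (μ : Measure Ω) [IsProbabilityMeasure μ]
  (X : Ω → ℕ), Measurable X → (∃ N : ℕ, ∀ ω, X ω ≤ N) → ∀ C : ℝ,
  (∀ k : ℕ, 2 ^ k * (1 - ∫ ω, (1 - (1 / 2 : ℝ) ^ k) ^ X ω ∂μ) ≤ C) → ∫ ω, (X ω : ℝ) ∂μ ≤ C

/-- BOUND (hypotheses: all above; helper984). -/
def S_BOUND : Prop := ∀ (V : Type) [DecidableEq V] [MeasurableSpace V]
  [MeasurableSingletonClass V] [Countable V] (S : Tri V) (up : V → Finset V) (cone : V → Set V),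
  Cone S up cone → ∀ p : ℝ, 0 ≤ p → p < 1 / 2 → ∀ (T : ℕ) (x : V),
    ∑ t ∈ range T, aT S p 0 x t ≤ 1 + Real.log (1 / (1 - 2 * p))

/-! ## The graph -/

/-- the vertices -/
abbrev FG : Type := FreeGroup Bool

/-- the 4-regular tree: Cayley graph of the free group -/
def gr : SimpleGraph FG where
  Adj x y := ∃ s : Bool, y = x * FreeGroup.of s ∨ x = y * FreeGroup.of s
  symm := ⟨fun x y ⟨s, h⟩ => ⟨s, h.symm⟩⟩
  loopless := ⟨fun x ⟨s, h⟩ => by
    have h1 : FreeGroup.of s = 1 := by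
      rcases h with h | h <;> exact (mul_eq_left.1 h.symm)
    exact FreeGroup.of_ne_one s h1⟩

open Classical in
/-- the directed kernel: from `x` to `x a⁻¹` and `x b⁻¹` with probability `1/2` each -/
def ker (x y : FG) : ℝ := if ∃ s : Bool, x = y * FreeGroup.of s then 1 / 2 else 0

/-- the left translations -/
def tra : Subgroup (Equiv.Perm FG) := (MulAction.toPermHom FG FG).range

/-- the vertices from which one can move to `x` -/
def upF (x : FG) : Finset FG := {x * FreeGroup.of false, x * FreeGroup.of true}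

/-- the vertices from which `x` is accessible -/
def coneF (x : FG) : Set FG := {y | ∃ w : List Bool, y = x * (w.map FreeGroup.of).prod}

/-- GR1 (no hypotheses). Connected: `FreeGroup.induction_on`. Locally finite: the neighbours of `x`
are the four elements `x s^(±1)`. -/
def S_GR1 : Prop := gr.Connected ∧ Nonempty gr.LocallyFinite

/-- GR2 (no hypotheses; take any `[gr.LocallyFinite]`). -/
def S_GR2 : Prop := ∀ [gr.LocallyFinite], IsKernel gr ker ∧ IsAut gr ker tra ∧ IsTransitive tra ∧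
  IsUnimodular tra ∧ IsInfinitelyAccessible gr ker tra

/-- GR3 (no hypotheses). `a w = b w'` is impossible for positive words `w, w'`, and `w = 1` only for
the empty word: `FreeGroup.toWord` of a positive word is the word (reduced words). -/
def S_GR3 : Prop := (∀ y, y ∈ coneF y) ∧
  (∀ y, ∀ z ∈ upF y, ∀ w ∈ coneF z, w ∈ coneF y ∧ w ≠ y) ∧
  (∀ x, ∀ y ∈ upF x, ∀ z ∈ upF x, y ≠ z → Disjoint (coneF y) (coneF z)) ∧
  (∀ x, (upF x).card = 2) ∧ (∀ x, ∀ y ∈ upF x, gr.Adj x y ∧ ker y x = 1 / 2) ∧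
  ∀ x y, y ∉ upF x → ker y x = 0

/-- LIM (no hypotheses). -/
def S_LIM : Prop := ∀ γ : ℝ, 0 < γ → Tendsto (fun p : ℝ =>
  (1 + Real.log (1 / (1 - 2 * p))) * (1 / 2 - p) ^ γ) (𝓝[<] (1 / 2)) (𝓝 0)

end Run7.h984.PK
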