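import Pool.Agent.Run7.h984.PK.Bound

set_option autoImplicit false

open MeasureTheory Measure Finset Filter
open scoped ENNReal Topology
open Pool.Agent.TH996.Parking Pool.Agent.TH996 Pool.Agent.TH996.Park

noncomputable section

namespace Run7.h984.PK.Main

theorem log_nonneg' {p : ℝ} (hp0 : 0 ≤ p) (hp1 : p < 1 / 2) :
    0 ≤ Real.log (1 / (1 - 2 * p)) := by
  apply Real.log_nonneg
  rw [le_div_iff₀ (by linarith)]
  linarith

theorem bound (hBd : S_BOUND) (h1 : S_GR1) (h2 : S_GR2) (h3 : S_GR3)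
    [MeasurableSpace FG] [DiscreteMeasurableSpace FG] [gr.LocallyFinite] (p : ℝ) (hp0 : 0 ≤ p)
    (hp1 : p < 1 / 2) (x : FG) :
    expectedVisits gr ker p x ≤ ENNReal.ofReal (1 + Real.log (1 / (1 - 2 * p))) := by
  classical
  obtain ⟨hK, hA, hT, hU, -⟩ := h2
  have : Countable FG := countable_of_connected gr h1.1
  obtain ⟨g1, g2, g3, g4, g5, g6⟩ := h3
  have hc : Cone (mkTri gr ker tra hK hA hT hU) upF coneF :=
    { self := g1
      sub := g2
      disj := g3
      card := g4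
      nb := fun x y hy => (SimpleGraph.mem_neighborFinset gr x y).2 (g5 x y hy).1
      half := fun x y hy => (g5 x y hy).2
      zero := g6 }
  exact expectedVisits_le gr ker tra hK hA hT hU ⟨hp0, by linarith⟩ x _
    (fun T => hBd FG (mkTri gr ker tra hK hA hT hU) upF coneF hc p hp0 hp1 T x)

theorem lim (hBd : S_BOUND) (h1 : S_GR1) (h2 : S_GR2) (h3 : S_GR3) (hL : S_LIM)
    [MeasurableSpace FG] [DiscreteMeasurableSpace FG] [gr.LocallyFinite] (x : FG) (γ : ℝ)
    (hγ : 0 < γ) :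
    Tendsto (fun p : ℝ => (expectedVisits gr ker p x).toReal * (1 / 2 - p) ^ γ)
      (𝓝[<] (1 / 2)) (𝓝 0) := by
  refine squeeze_zero' ?_ ?_ (hL γ hγ)
  · filter_upwards [self_mem_nhdsWithin] with p hp
    have hp' : p < 1 / 2 := hp
    exact mul_nonneg ENNReal.toReal_nonneg (Real.rpow_nonneg (by linarith) _)
  · have h0 : ∀ᶠ p : ℝ in 𝓝[<] (1 / 2), 0 < p :=
      (eventually_gt_nhds (by norm_num : (0 : ℝ) < 1 / 2)).filter_mono nhdsWithin_le_nhds
    filter_upwards [self_mem_nhdsWithin, h0] with p hp hp0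
    have hp' : p < 1 / 2 := hp
    have hl := log_nonneg' hp0.le hp'
    refine mul_le_mul_of_nonneg_right ?_ (Real.rpow_nonneg (by linarith) _)
    exact ENNReal.toReal_le_of_le_ofReal (by linarith) (bound hBd h1 h2 h3 p hp0.le hp' x)

end Run7.h984.PK.Main
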