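import Pool.Agent.Run7.h984.PK.All

/-!
# The parking process on the directed 4-regular tree: no power law at the critical density

`V` is the free group on two generators `a`, `b`, `G` its Cayley graph (the 4-regular tree), the
cars at `x` move to `x a⁻¹` or `x b⁻¹` with probability `1/2` each, `Γ` is the group of the left
translations. Theorem: `E_p V ≤ 1 + log (1 / (1 - 2 p))` for `p < 1/2`. As `E_p V → ∞` for
`p → 1/2` (known), the growth is at most logarithmic: `E_p V (1/2 - p)^γ → 0` for all `γ > 0`, so Q2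
has a negative answer.

Proof. The cars which visit `x` come from the two branches of the tree above `x a` and `x b`, which
are disjoint, and no car returns to its branch. So with `f_T (u) = E (1 - u)^(visits to x up to time T)`
one has `f_(T+1) (2 v) = h (v)²`, where `h (v)` is the generating function of the number of departures
from a vertex: one more than the number of the visits if there is a car at time `0`, otherwise one less
(if it is not zero). Conservation of mass gives `P (no visit up to time T) ≥ 1 - 2 p`, and so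
`f_(T+1) (2 v) ≤ f_T (v)² exp (2 v²)`. Iterating from `v = 2^(-k)` to `1`:
`1 - 2 p ≤ f (1) ≤ e (f (2^(-k)))^(2^k)`, which tends to `e exp (- E V)` for `k → ∞`.
-/

set_option autoImplicit false

open MeasureTheory Filter
open scoped ENNReal Topology
open Pool.Agent.TH996.Parking

noncomputable section

namespace Run7.h984.PK.Result

/-- Question 2: for every transitive, unimodular, infinitely accessible triple there are `γ, C > 0`
with `E_p V (1/2 - p)^γ → C` for `p ↗ 1/2`. -/
def Q2 : Prop := ∀ (V : Type) [MeasurableSpace V] [DiscreteMeasurableSpace V] [Infinite V]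
  (G : SimpleGraph V) [G.LocallyFinite] (K : V → V → ℝ) (Γ : Subgroup (Equiv.Perm V)),
  G.Connected → IsKernel G K → IsAut G K Γ → IsTransitive Γ → IsUnimodular Γ →
  IsInfinitelyAccessible G K Γ → ∃ γ C : ℝ, 0 < γ ∧ 0 < C ∧ ∀ x, Tendsto (fun p : ℝ =>
    (expectedVisits G K p x).toReal * (1 / 2 - p) ^ γ) (𝓝[<] (1 / 2)) (𝓝 C)

/-- the 4-regular tree: the Cayley graph of the free group on two generators -/
def tree : SimpleGraph (FreeGroup Bool) where
  Adj x y := ∃ s : Bool, y = x * FreeGroup.of s ∨ x = y * FreeGroup.of s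
  symm := ⟨fun x y ⟨s, h⟩ => ⟨s, h.symm⟩⟩
  loopless := ⟨fun x ⟨s, h⟩ => by
    have h1 : FreeGroup.of s = 1 := by
      rcases h with h | h <;> exact (mul_eq_left.1 h.symm)
    exact FreeGroup.of_ne_one s h1⟩

open Classical in
/-- the directed kernel: `K (x, x s⁻¹) = 1/2` for the two generators `s` -/
def K (x y : FreeGroup Bool) : ℝ := if ∃ s : Bool, x = y * FreeGroup.of s then 1 / 2 else 0

/-- the group of the left translations -/
def Γ : Subgroup (Equiv.Perm (FreeGroup Bool)) :=
  (MulAction.toPermHom (FreeGroup Bool) (FreeGroup Bool)).range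

/-- **Negative answer to Q2.** On the 4-regular tree with the directed kernel `K` the expected
number of visits is at most `1 + log (1 / (1 - 2 p))` for all `p < 1/2`, and so
`E_p V (1/2 - p)^γ → 0` for all `γ > 0`. (`MeasurableSpace` is the discrete one, and
`LocallyFinite` is any instance.) -/
theorem result : ¬ Q2 ∧ Infinite (FreeGroup Bool) ∧ tree.Connected ∧ Nonempty tree.LocallyFinite ∧
    ∀ [MeasurableSpace (FreeGroup Bool)] [DiscreteMeasurableSpace (FreeGroup Bool)]
      [tree.LocallyFinite], IsKernel tree K ∧ IsAut tree K Γ ∧ IsTransitive Γ ∧ IsUnimodular Γ ∧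
      IsInfinitelyAccessible tree K Γ ∧
      (∀ p : ℝ, 0 ≤ p → p < 1 / 2 → ∀ x, expectedVisits tree K p x ≤
        ENNReal.ofReal (1 + Real.log (1 / (1 - 2 * p)))) ∧
      ∀ x, ∀ γ : ℝ, 0 < γ → Tendsto (fun p : ℝ =>
        (expectedVisits tree K p x).toReal * (1 / 2 - p) ^ γ) (𝓝[<] (1 / 2)) (𝓝 0) := by
  obtain ⟨hconn, ⟨hlf⟩⟩ := Run7.h984.PK.All.gr1
  have hinf : Infinite (FreeGroup Bool) := by
    have h1 : tree.LocallyFinite := hlf
    obtain ⟨-, -, -, -, φ, -, u, hu, -⟩ := @Run7.h984.PK.All.gr2 h1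
    exact Set.infinite_univ_iff.1 (hu.mono (Set.subset_univ _))
  refine ⟨fun hQ => ?_, hinf, hconn, ⟨hlf⟩, ?_⟩
  · let i1 : MeasurableSpace (FreeGroup Bool) := ⊤
    have i2 : DiscreteMeasurableSpace (FreeGroup Bool) := ⟨fun _ => trivial⟩
    have i3 : tree.LocallyFinite := hlf
    obtain ⟨h1, h2, h3, h4, h5⟩ := @Run7.h984.PK.All.gr2 i3
    obtain ⟨γ, C, hγ, hC, h⟩ := hQ (FreeGroup Bool) tree K Γ hconn h1 h2 h3 h4 h5
    have h6 := @Run7.h984.PK.All.lim i1 i2 i3 (1 : FreeGroup Bool) γ hγ
    exact hC.ne (tendsto_nhds_unique h6 (h 1))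
  · intro i1 i2 i3
    obtain ⟨h1, h2, h3, h4, h5⟩ := @Run7.h984.PK.All.gr2 i3
    exact ⟨h1, h2, h3, h4, h5, @Run7.h984.PK.All.bound i1 i2 i3, fun x γ hγ =>
      @Run7.h984.PK.All.lim i1 i2 i3 x γ hγ⟩

end Run7.h984.PK.Result
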